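import Mathlib
import Pool.Agent.Y696.Main2
import Pool.Agent.Y696.Stm
import Pool.Agent.TH841.NF.ShaN

/-!
# Project TQ (owner helper24): `E : y² = x³ - 1` over extensions of `3`-power degree of `K = ℚ(√-3)`

All the definitions and the statements of the pieces (`def P_... : Prop`).
Theorem: `F / K` Galois of degree `3 ^ n`, ramified only at primes that do not divide `3` and in whose
residue fields (of `K`) `-1` is not a square.  Then `E(F)` is finite of order prime to `3`; and if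
`F / K` is abelian (`IsArtin`), `L(E / F, 1) ≠ 0`, with the `3`-part of the formula.
-/

set_option autoImplicit false

namespace Pool.Agent.W2helper24.TQ

open NumberField IsDedekindDomain Complex Filter Topology WeierstrassCurve
open Pool.Agent.Y696 Pool.Agent.W192.HK Pool.Agent.TH936.CM Pool.Agent.TH936.PU
open Pool.Agent.W192.CM (nu)
open scoped PeriodPair Classical

/-- the Weierstrass curve `y² = x³ - 1` -/
def Em (R : Type) [CommRing R] : WeierstrassCurve R := ⟨0, 0, 0, 0, -1⟩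

/-! ## The Hecke character of conductor `4 √-3` -/

/-- the prime element `√-3` -/
noncomputable def lam : eis := 2 * omr + 1

/-- the normalized generators: `α ≡ 1` modulo `2`, `α ≡ e` modulo `√-3` and `N(α) ≡ e` modulo `4`,
where `e = ± 1` -/
def Prm (α : eis) : Prop := ∃ e : ℤ, (e = 1 ∨ e = -1) ∧ α - 1 ∈ (sp 2 : Ideal eis) ∧
  α - (e : eis) ∈ (sp lam : Ideal eis) ∧ α * cj α - (e : eis) ∈ (sp 4 : Ideal eis)

/-- the Hecke character of `y² = x³ - 1` -/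
noncomputable def psim (I : Ideal eis) : ℂ :=
  if h : ∃ α : eis, I = sp α ∧ Prm α then ((Classical.choose h : eis) : ℂ) else 0

/-- the quadratic character modulo `√-3` -/
structure Thl (t : eis → ℂ) : Prop where
  one : ∀ x : eis, x - 1 ∈ (sp lam : Ideal eis) → t x = 1
  neg : ∀ x : eis, x + 1 ∈ (sp lam : Ideal eis) → t x = -1
  zero : ∀ x ∈ (sp lam : Ideal eis), t x = 0

/-- the character modulo `4` -/
structure Th4 (t : eis → ℂ) : Prop where
  per : ∀ x y : eis, x - y ∈ (sp 4 : Ideal eis) → t x = t y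
  mul : ∀ x y : eis, t (x * y) = t x * t y
  zero : ∀ x ∈ (sp 2 : Ideal eis), t x = 0
  om : ∀ x : eis, t (omr * x) = om * t x
  one : ∀ x : eis, x - 1 ∈ (sp 2 : Ideal eis) → x * cj x - 1 ∈ (sp 4 : Ideal eis) → t x = 1
  neg : ∀ x : eis, x - 1 ∈ (sp 2 : Ideal eis) → x * cj x + 1 ∈ (sp 4 : Ideal eis) → t x = -1

/-- PIECE B1: the Hecke character -/
def P_B1 : Prop :=
  (∀ α : eis, Prm α → psim (sp α) = α) ∧
  (∀ I : Ideal eis, IsCoprime I (sp (2 * lam)) → ∃ α : eis, I = sp α ∧ Prm α) ∧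
  (∀ I : Ideal eis, psim I = 0 ↔ ¬ IsCoprime I (sp (2 * lam))) ∧
  HC 1 (sp (4 * lam)) psim ∧
  (∃ tl t4 : eis → ℂ, Thl tl ∧ Th4 t4 ∧ Eo lam tl ∧ ∀ α : eis, ee psim α = tl α * t4 α)

/-- PIECE B2: the number of points -/
def P_B2 : Prop := ∀ (k : Type) [Field k] [Fintype k] (ρ : eis →+* k) (π : eis), Prime π → Prm π →
  (2 : k) ≠ 0 → (3 : k) ≠ 0 → (∀ x, ρ x = 0 ↔ π ∣ x) → ∀ f : ℕ,
  ((Fintype.card k : ℕ) : eis) = (π * cj π) ^ f →
    ((Nat.card {p : k × k // p.2 ^ 2 = p.1 ^ 3 - 1} : ℕ) : eis) =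
      ((Fintype.card k : ℕ) : eis) - (π ^ f + (cj π) ^ f)

/-- the coefficient function -/
noncomputable def ecm {c : eis} (η : MulChar (eis ⧸ (sp c : Ideal eis)) ℂ) (α : eis) : ℂ :=
  ee psim α * (starRingEnd ℂ) (et η α)

/-- PIECE B3: the Hecke L-functions -/
def P_B3 : Prop := ∀ (c : eis) (η : MulChar (eis ⧸ (sp c : Ideal eis)) ℂ), c ≠ 0 →
  IsCoprime c 2 → IsCoprime c 3 → (∀ u : eis, IsUnit u → et η u = 1) →
  ∃ F : ℂ → ℂ, Differentiable ℂ F ∧
    (∀ z : ℂ, 3 / 2 < z.re →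
      HasSum (fun I : Ideal eis => psim I * eI η I * (nm I : ℂ) ^ (-z)) (F z)) ∧
    ∀ (L : PeriodPair) (Ω : ℂ), IsLat L eis Ω →
      Tendsto (SS (ecm η)) (𝓝[>] 0) (𝓝 ((nu eis : ℂ) * (starRingEnd ℂ) (F 1)))

/-! ## The lattice -/

/-- the lattice of the curve `y² = 4 x³ - 4` -/
structure CurM (L : PeriodPair) (Ω : ℂ) : Prop where
  lat : IsLat L eis Ω
  g2 : L.g₂ = 0
  g3 : L.g₃ = 4

/-- PIECE B4: the lattice and the values of the elliptic functions at the points of order prime to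
`3` -/
def P_B4 : Prop :=
  (∃ (L : PeriodPair) (Ω : ℂ), CurM L Ω) ∧
  (∀ (L : PeriodPair) (Ω : ℂ), CurM L Ω →
    (Ω / (lam : ℂ) ∉ L.lattice ∧ ℘[L] (Ω / (lam : ℂ)) = 0 ∧ ℘'[L] (Ω / (lam : ℂ)) ^ 2 = -4) ∧
    (∀ (tl : eis → ℂ), Thl tl → Eo lam tl → ∀ [Fintype (eis ⧸ (sp lam : Ideal eis))] (w : ℂ),
      ℘[L] w ≠ 0 → HH L Ω lam tl w = -℘'[L] (Ω / (lam : ℂ)) / ℘[L] w) ∧
    (∀ z : ℂ, (lam : ℂ) * z ∉ L.lattice →
      ℘[L] ((lam : ℂ) * z) * (3 * ℘[L] z ^ 2) = 4 - ℘[L] z ^ 3) ∧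
    (∀ (Γ : Type) [LinearOrderedCommGroupWithZero Γ] (v : Valuation ℂ Γ), v 3 < 1 →
      ∀ a b : eis, b ≠ 0 → IsCoprime b lam → a ∉ (sp b : Ideal eis) →
        v (℘[L] (Ω * a / b)) = 1 ∧ v (℘[L] (Ω * a / b) - 1) ≤ v (lam : ℂ)))

/-- PIECE B5: the value at one is a unit at three -/
def P_B5 : Prop := ∀ (L : PeriodPair) (Ω : ℂ), CurM L Ω →
  ∀ (Γ : Type) [LinearOrderedCommGroupWithZero Γ] (v : Valuation ℂ Γ), v 3 < 1 →
  ∀ (c : eis) (η : MulChar (eis ⧸ (sp c : Ideal eis)) ℂ), c ≠ 0 → IsCoprime c 2 → IsCoprime c 3 →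
  (∀ P : HeightOneSpectrum eis, c ∈ P.asIdeal → ∀ x : eis, x ^ 2 + 1 ∉ P.asIdeal) →
  (∀ u : eis, IsUnit u → et η u = 1) → (∃ k : ℕ, η ^ (3 ^ k) = 1) →
  ∀ a : ℂ, Tendsto (SS (ecm η)) (𝓝[>] 0) (𝓝 ((nu eis : ℂ) * (starRingEnd ℂ) a)) →
    v ((starRingEnd ℂ) a / Ω) = 1

/-! ## The L-function of the curve over `F` -/

section Lfun

variable {F : Type} [Field F] [NumberField F]

/-- the number of the elements of the residue field -/
noncomputable def nmF (w : HeightOneSpectrum (𝓞 F)) : ℕ := Nat.card (𝓞 F ⧸ w.asIdeal)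

/-- the number of the affine points of `y² = x³ - 1` over the residue field -/
noncomputable def ptsF (w : HeightOneSpectrum (𝓞 F)) : ℕ :=
  Nat.card {p : (𝓞 F ⧸ w.asIdeal) × (𝓞 F ⧸ w.asIdeal) // p.2 ^ 2 = p.1 ^ 3 - 1}

/-- the inverse of the local factor at `w`; it is `1` if `w` divides `6` -/
noncomputable def facD (w : HeightOneSpectrum (𝓞 F)) (s : ℂ) : ℂ :=
  if (6 : 𝓞 F) ∈ w.asIdeal then 1 else
    1 - (((nmF w : ℤ) - ptsF w : ℤ) : ℂ) * (nmF w : ℂ) ^ (-s) + (nmF w : ℂ) ^ (1 - 2 * s)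

/-- the local factor at `w` -/
noncomputable def fac (w : HeightOneSpectrum (𝓞 F)) (s : ℂ) : ℂ := (facD w s)⁻¹

end Lfun

/-- an abelian extension of `ℚ(√-3)` of `3`-power degree with its Artin map -/
structure DatM {F : Type} [Field F] [NumberField F] (ι : eis →+* 𝓞 F) (G : Type) [CommGroup G]
    [MulSemiringAction G (𝓞 F)] (c : eis) (art : (eis ⧸ (sp c : Ideal eis))ˣ →* G) : Prop where
  c_ne : c ≠ 0
  cop2 : IsCoprime c 2
  cop3 : IsCoprime c 3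
  good : ∀ P : HeightOneSpectrum eis, c ∈ P.asIdeal → ∀ x : eis, x ^ 2 + 1 ∉ P.asIdeal
  pgrp : ∃ n, Nat.card G = 3 ^ n
  inv : ∀ b : 𝓞 F, (∀ g : G, g • b = b) → ∃ a, ι a = b
  fix : ∀ (g : G) (a : eis), g • ι a = ι a
  surj : Function.Surjective art
  unr : ∀ v : HeightOneSpectrum (𝓞 F), ι c ∉ v.asIdeal →
    ∀ g : G, (∀ x : 𝓞 F, g • x - x ∈ v.asIdeal) → g = 1
  frob : ∀ π : eis, Prime π → ∀ u : (eis ⧸ (sp c : Ideal eis))ˣ,
    (u : eis ⧸ (sp c : Ideal eis)) = Ideal.Quotient.mk _ π →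
    ∀ v : HeightOneSpectrum (𝓞 F), ι π ∈ v.asIdeal →
    ∀ x : 𝓞 F, art u • x - x ^ Nat.card (eis ⧸ (sp π : Ideal eis)) ∈ v.asIdeal

/-- the analytic theorem for the data `DatM` -/
def AN {F : Type} [Field F] [NumberField F] (N : ℕ) : Prop :=
  ∃ Lf : ℂ → ℂ, MeromorphicOn Lf Set.univ ∧
    (∀ s : ℂ, 3 / 2 < s.re → HasProd (fun w : HeightOneSpectrum (𝓞 F) => fac w s) (Lf s)) ∧
    AnalyticAt ℂ Lf 1 ∧ Lf 1 ≠ 0 ∧
    ∀ (L : PeriodPair) (Ω : ℂ), CurM L Ω → ∀ (Γ : Type) [LinearOrderedCommGroupWithZero Γ]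
      (v : Valuation ℂ Γ), v 3 < 1 → v (Lf 1 / (Ω * (starRingEnd ℂ) Ω) ^ N) = 1

/-- PIECE C1 (from B1, B2, B3, B5): the analytic theorem for an extension with its Artin map -/
def P_C1 : Prop := ∀ (F : Type) [Field F] [NumberField F] (ι : eis →+* 𝓞 F) (G : Type)
  [CommGroup G] [Finite G] [MulSemiringAction G (𝓞 F)] (c : eis)
  (art : (eis ⧸ (sp c : Ideal eis))ˣ →* G), DatM ι G c art → AN (F := F) (Nat.card G)

/-- PIECE C2: the analytic theorem for a number field `F` over the field `K` -/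
def P_C2 : Prop := ∀ (K F : Type) [Field K] [NumberField K] [IsCyclotomicExtension {3} ℚ K]
  [Field F] [NumberField F] [Algebra K F] [IsGalois K F] (n : ℕ), Module.finrank K F = 3 ^ n →
  ∀ (c : 𝓞 K) (art : (𝓞 K ⧸ Ideal.span {c})ˣ →* Gal(F/K)), IsArtin c art →
    c ≠ 0 → IsCoprime c 6 →
    (∀ v₀ : HeightOneSpectrum (𝓞 K), c ∈ v₀.asIdeal → ∀ x : 𝓞 K, x ^ 2 + 1 ∉ v₀.asIdeal) →
    ∃ Lf : ℂ → ℂ, MeromorphicOn Lf Set.univ ∧
      (∀ s : ℂ, 3 / 2 < s.re → HasProd (fun w : HeightOneSpectrum (𝓞 F) => fac w s) (Lf s)) ∧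
      AnalyticAt ℂ Lf 1 ∧ Lf 1 ≠ 0 ∧
      ∀ L : PeriodPair, L.g₂ = 0 → L.g₃ = 4 →
        ∀ (Γ : Type) [LinearOrderedCommGroupWithZero Γ] (v : Valuation ℂ Γ), v 3 < 1 →
          v (Lf 1 * (Real.sqrt |(discr F : ℝ)| : ℝ) /
            ((2 * |((starRingEnd ℂ) L.ω₁ * L.ω₂).im| : ℝ) : ℂ) ^ 3 ^ n) = 1

/-- PIECE C3: the `3`-part of the discriminant -/
def P_C3 : Prop := ∀ (K F : Type) [Field K] [NumberField K] [IsCyclotomicExtension {3} ℚ K]
  [Field F] [NumberField F] [Algebra K F],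
  (∀ w : HeightOneSpectrum (𝓞 F), (3 : 𝓞 F) ∈ w.asIdeal →
    Algebra.IsUnramifiedAt (𝓞 K) w.asIdeal) →
  ∃ d : ℕ, ¬ 3 ∣ d ∧ (discr F).natAbs = 3 ^ Module.finrank K F * d

/-! ## The algebraic part -/

/-- PIECE A1: if `y - i` is a cube in `F' = F(i)` for all the points, then `E(F)` is divisible by `3` -/
def P_A1 : Prop := ∀ (F F' : Type) [Field F] [CharZero F] [Field F'] [Algebra F F']
  (σ : F' ≃ₐ[F] F') (i : F') (θ : F), i ^ 2 = -1 → σ i = -i →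
  (∀ z, σ z = z → ∃ f : F, algebraMap F F' f = z) → θ ^ 2 = -3 →
  (∀ x y : F, y ^ 2 = x ^ 3 - 1 → ∃ w : F', w ^ 3 = algebraMap F F' y - i) →
  ∀ P : (Em F).toAffine.Point, ∃ Q : (Em F).toAffine.Point, P = 3 • Q

/-- the numbers whose valuations are divisible by three and that are cubes up to `3` at the primes
above three (for residue fields with `N` elements: `u ^ (N - 1) ≡ 1` modulo `3`) -/
structure Sel {M : Type} [Field M] [NumberField M] (z : M) : Prop where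
  ne : z ≠ 0
  div : ∀ w : HeightOneSpectrum (𝓞 M), ∃ a : M, w.valuation M (z * a ^ 3) = 1
  loc : ∀ w : HeightOneSpectrum (𝓞 M), (3 : 𝓞 M) ∈ w.asIdeal → ∀ a : M,
    w.valuation M (z * a ^ 3) = 1 →
      w.valuation M ((z * a ^ 3) ^ (Nat.card (𝓞 M ⧸ w.asIdeal) - 1) - 1) ≤ w.valuation M 3

/-- PIECE A2: the local conditions of the points -/
def P_A2 : Prop := ∀ (F F' : Type) [Field F] [NumberField F] [Field F'] [NumberField F']
  [Algebra F F'] (i θ : F'), i ^ 2 = -1 → θ ^ 2 = -3 →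
  (∀ v : HeightOneSpectrum (𝓞 F), (2 : 𝓞 F) ∈ v.asIdeal → v.valuation F 2 = WithZero.exp (-1 : ℤ)) →
  (∀ w : HeightOneSpectrum (𝓞 F'), (3 : 𝓞 F') ∈ w.asIdeal →
    w.valuation F' θ = WithZero.exp (-1 : ℤ)) →
  (∀ y : F, algebraMap F F' y ≠ i) →
  ∀ x y : F, y ^ 2 = x ^ 3 - 1 → Sel (algebraMap F F' y - i)

/-- PIECE A4: the field of the `12`-th roots of unity -/
def P_A4 : Prop := ∀ (M : Type) [Field M] [NumberField M] [IsCyclotomicExtension {12} ℚ M] (m : M),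
  Sel m → ∃ a : M, m = a ^ 3

/-- PIECE A5: the abstract descent -/
def P_A5 : Prop := ∀ (M L : Type) [Field M] [Field L] [Algebra M L] [FiniteDimensional M L]
  [IsGalois M L] (n : ℕ), Module.finrank M L = 3 ^ n → ∀ σ : L ≃+* L,
  (∀ x, σ (σ x) = x) → (∀ (g : Gal(L/M)) (x : L), σ (g x) = g (σ x)) →
  (∀ ζ : L, ζ ^ 3 = 1 → σ ζ = ζ) →
  ∀ S : L → Prop, (∀ a, S a → a ≠ 0) → (∀ a, a ≠ 0 → S (a ^ 3)) → (∀ a b, S a → S b → S (a * b)) →
  (∀ (g : Gal(L/M)) (a : L), S a → S (g a)) → (∀ a, S a → S (σ a)) →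
  (∀ m : M, S (algebraMap M L m) → σ (algebraMap M L m) = (algebraMap M L m)⁻¹ →
    ∃ a : L, algebraMap M L m = a ^ 3) →
  ∀ z, S z → (∃ a, z * σ z = a ^ 3) → ∃ a, z = a ^ 3

/-- the towers: `M = K(i)`, `L = F(i)` -/
structure Tow (K F M L : Type) [Field K] [NumberField K] [Field F] [NumberField F] [Algebra K F]
    [Field M] [NumberField M] [Algebra K M] [Field L] [NumberField L] [Algebra K L] [Algebra F L]
    [Algebra M L] (i : M) (σM : M ≃ₐ[K] M) (σ : L ≃ₐ[F] L) (n : ℕ) : Prop where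
  hi : i ^ 2 = -1
  sq : ∀ x, σ (σ x) = x
  si : σM i = -i
  res : ∀ m : M, σ (algebraMap M L m) = algebraMap M L (σM m)
  fixF : ∀ z : L, σ z = z → ∃ f : F, algebraMap F L f = z
  fixK : ∀ z : M, σM z = z → ∃ f : K, algebraMap K M f = z
  fr : Module.finrank M L = 3 ^ n
  comm : ∀ (g : Gal(L/M)) (x : L), σ (g x) = g (σ x)
  gen : ∀ z : L, ∃ a b : F, z = algebraMap F L a + algebraMap F L b * algebraMap M L i
  not : ∀ y : F, algebraMap F L y ≠ algebraMap M L i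

/-- PIECE A6: existence of the tower -/
def P_A6 : Prop := ∀ (K F : Type) [Field K] [NumberField K] [IsCyclotomicExtension {3} ℚ K]
  [Field F] [NumberField F] [Algebra K F] [IsGalois K F] (n : ℕ), Module.finrank K F = 3 ^ n →
  ∃ (M : Type) (_ : Field M) (_ : NumberField M) (_ : Algebra K M) (L : Type) (_ : Field L)
    (_ : NumberField L) (_ : Algebra K L) (_ : Algebra F L) (_ : Algebra M L)
    (_ : IsScalarTower K F L) (_ : IsScalarTower K M L) (i : M) (σM : M ≃ₐ[K] M) (σ : L ≃ₐ[F] L),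
    IsCyclotomicExtension {12} ℚ M ∧ IsGalois M L ∧ Tow K F M L i σM σ n

/-- `F / K` is ramified only at primes that do not divide `3` and in whose residue fields (of `K`) `-1`
is not a square -/
def Ram (K F : Type) [Field K] [NumberField K] [Field F] [NumberField F] [Algebra K F] : Prop :=
  ∀ w : HeightOneSpectrum (𝓞 F), ¬ Algebra.IsUnramifiedAt (𝓞 K) w.asIdeal →
    (3 : 𝓞 F) ∉ w.asIdeal ∧ ∀ x : 𝓞 K, algebraMap (𝓞 K) (𝓞 F) (x ^ 2 + 1) ∉ w.asIdeal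

/-- PIECE A7: ramification in the tower -/
def P_A7 : Prop := ∀ (K F : Type) [Field K] [NumberField K] [IsCyclotomicExtension {3} ℚ K]
  [Field F] [NumberField F] [Algebra K F] [IsGalois K F] (n : ℕ), Module.finrank K F = 3 ^ n →
  Ram K F → ∀ (M L : Type) [Field M] [NumberField M] [IsCyclotomicExtension {12} ℚ M]
    [Algebra K M] [Field L] [NumberField L] [Algebra K L] [Algebra F L] [Algebra M L]
    [IsScalarTower K F L] [IsScalarTower K M L] [IsGalois M L] (i : M) (σM : M ≃ₐ[K] M)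
    (σ : L ≃ₐ[F] L), Tow K F M L i σM σ n →
  (∀ v : HeightOneSpectrum (𝓞 F), (2 : 𝓞 F) ∈ v.asIdeal →
    v.valuation F 2 = WithZero.exp (-1 : ℤ)) ∧
  (∀ θ : L, θ ^ 2 = -3 → ∀ w : HeightOneSpectrum (𝓞 L), (3 : 𝓞 L) ∈ w.asIdeal →
    w.valuation L θ = WithZero.exp (-1 : ℤ)) ∧
  (∀ m : M, Sel (algebraMap M L m) → σM m = m⁻¹ → Sel m)

/-- PIECE A8: the Tate-Shafarevich group has no element of order `3` -/
def P_A8 : Prop := ∀ (K F : Type) [Field K] [NumberField K] [IsCyclotomicExtension {3} ℚ K]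
  [Field F] [NumberField F] [Algebra K F] [IsGalois K F] (n : ℕ), Module.finrank K F = 3 ^ n →
  Ram K F → ∀ x : Pool.Agent.TH841.NF.D.Sha (Em F), 3 • x = 0 → x = 0

/-- PIECE A9: the Tamagawa numbers are prime to `3` -/
def P_A9 : Prop := ∀ (K F : Type) [Field K] [NumberField K] [IsCyclotomicExtension {3} ℚ K]
  [Field F] [NumberField F] [Algebra K F] [IsGalois K F] (n : ℕ), Module.finrank K F = 3 ^ n →
  Ram K F → ∀ v : HeightOneSpectrum (𝓞 F),
    IsMinimal (v.adicCompletionIntegers F) ((Em F).baseChange (v.adicCompletion F)) ∧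
    ∃ H : AddSubgroup ((Em F).baseChange (v.adicCompletion F)).toAffine.Point,
      (∀ P, P ∈ H ↔ NonsingRed Valued.v ((Em F).baseChange (v.adicCompletion F)) P) ∧
      H.index ≠ 0 ∧ ¬ 3 ∣ H.index

/-- PIECE A10 (from A1 - A7 and Mordell - Weil): the group of the rational points -/
def P_A10 : Prop := ∀ (K F : Type) [Field K] [NumberField K] [IsCyclotomicExtension {3} ℚ K]
  [Field F] [NumberField F] [Algebra K F] [IsGalois K F] (n : ℕ), Module.finrank K F = 3 ^ n →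
  Ram K F → Finite (Em F).toAffine.Point ∧ ¬ 3 ∣ Nat.card (Em F).toAffine.Point

end Pool.Agent.W2helper24.TQ
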