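import Mathlib
import Pool.Agent.W2helper24.TQ.Stm

/-!
# Abstract descent (project TQ, helper24)
-/

set_option autoImplicit false

namespace Pool.Agent.W2helper24.TQ

section
variable {M L : Type} [Field M] [Field L] [Algebra M L] [FiniteDimensional M L] [IsGalois M L]

/-- the cubes -/
abbrev Cu (L : Type) [Field L] : Subgroup Lˣ := (powMonoidHom 3 : Lˣ →* Lˣ).range

/-- the action on the classes -/
noncomputable def actC (g : Gal(L/M)) : Lˣ ⧸ Cu L →* Lˣ ⧸ Cu L :=
  QuotientGroup.map (Cu L) (Cu L) (Units.map (g : L →* L)) (by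
    rintro _ ⟨u, rfl⟩
    exact ⟨Units.map (g : L →* L) u, by simp⟩)

lemma actC_mk (g : Gal(L/M)) (u : Lˣ) :
    actC g (QuotientGroup.mk u) = QuotientGroup.mk (Units.map (g : L →* L) u) := rfl

noncomputable instance actM : MulAction Gal(L/M) (Lˣ ⧸ Cu L) where
  smul g x := actC g x
  one_smul x := by
    induction x using QuotientGroup.induction_on with
    | H u =>
      change actC 1 (QuotientGroup.mk u) = _
      rw [actC_mk]
      congr 1
  mul_smul g h x := by
    induction x using QuotientGroup.induction_on with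
    | H u =>
      change actC (g * h) (QuotientGroup.mk u) = actC g (actC h (QuotientGroup.mk u))
      rw [actC_mk, actC_mk, actC_mk]
      congr 1

lemma smul_def' (g : Gal(L/M)) (x : Lˣ ⧸ Cu L) : g • x = actC g x := rfl

/-- a fixed class in the module generated by a class that is not trivial -/
lemma exists_fixed {n : ℕ} (hn : Module.finrank M L = 3 ^ n) (P : Lˣ ⧸ Cu L → Prop)
    (hP1 : P 1) (hPm : ∀ a b, P a → P b → P (a * b)) (hPg : ∀ (g : Gal(L/M)) a, P a → P (g • a))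
    {z : Lˣ ⧸ Cu L} (hz : z ≠ 1) (hPz : P z) :
    ∃ y : Lˣ ⧸ Cu L, y ≠ 1 ∧ P y ∧ ∀ g : Gal(L/M), g • y = y := by
  classical
  have hcube : ∀ x : Lˣ ⧸ Cu L, x ^ 3 = 1 := by
    intro x
    induction x using QuotientGroup.induction_on with
    | H u =>
      rw [← QuotientGroup.mk_pow, QuotientGroup.eq_one_iff]
      exact ⟨u, rfl⟩
  set W : Subgroup (Lˣ ⧸ Cu L) := Subgroup.closure (Set.range fun g : Gal(L/M) => g • z) with hW
  have hfg : W.FG := (Subgroup.fg_iff W).2 ⟨_, rfl, Set.finite_range (fun g : Gal(L/M) => g • z)⟩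
  have hWfin : Finite W := by
    have h1 : Group.FG W := (Group.fg_iff_subgroup_fg W).2 hfg
    refine CommGroup.finite_of_fg_torsion W ?_
    intro x
    rw [isOfFinOrder_iff_pow_eq_one]
    exact ⟨3, by norm_num, Subtype.ext (hcube x)⟩
  have hstab : ∀ (g : Gal(L/M)) (x : Lˣ ⧸ Cu L), x ∈ W → g • x ∈ W := by
    intro g x hx
    refine Subgroup.closure_induction (p := fun x _ => g • x ∈ W) ?_ ?_ ?_ ?_ hx
    · rintro _ ⟨h, rfl⟩
      simp only
      rw [← mul_smul]
      exact Subgroup.subset_closure ⟨g * h, rfl⟩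
    · rw [smul_def', map_one]
      exact W.one_mem
    · intro a b _ _ ha hb
      rw [smul_def', map_mul]
      exact W.mul_mem ha hb
    · intro a _ ha
      rw [smul_def', map_inv]
      exact W.inv_mem ha
  have hPinv : ∀ a, P a → P a⁻¹ := by
    intro a ha
    have h1 : a⁻¹ = a * a := by
      rw [inv_eq_iff_mul_eq_one]
      have := hcube a
      rw [pow_succ, pow_two] at this
      exact eq_comm.1 (by rw [← mul_assoc]; exact this.symm)
    rw [h1]
    exact hPm _ _ ha ha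
  have hPW : ∀ x ∈ W, P x := by
    intro x hx
    refine Subgroup.closure_induction (p := fun x _ => P x) ?_ hP1 (fun a b _ _ => hPm a b)
      (fun a _ => hPinv a) hx
    rintro _ ⟨h, rfl⟩
    exact hPg h z hPz
  let _ : MulAction Gal(L/M) W :=
    { smul := fun g x => ⟨g • (x : Lˣ ⧸ Cu L), hstab g x x.2⟩
      one_smul := fun x => Subtype.ext (one_smul _ _)
      mul_smul := fun g h x => Subtype.ext (mul_smul _ _ _) }
  have hsm : ∀ (g : Gal(L/M)) (x : W), ((g • x : W) : Lˣ ⧸ Cu L) = g • (x : Lˣ ⧸ Cu L) :=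
    fun _ _ => rfl
  have : Fact (Nat.Prime 3) := ⟨Nat.prime_three⟩
  have hG : IsPGroup 3 Gal(L/M) := IsPGroup.of_card (n := n) (by
    rw [← hn]; exact IsGalois.card_aut_eq_finrank M L)
  have hWp : IsPGroup 3 W := fun x => ⟨1, Subtype.ext (by simpa using hcube x)⟩
  have hzW : z ∈ W := Subgroup.subset_closure ⟨1, one_smul _ _⟩
  have hnt : Nontrivial W := ⟨⟨⟨z, hzW⟩, 1, fun h => hz (congrArg Subtype.val h)⟩⟩
  obtain ⟨m, hm, hcard⟩ := (IsPGroup.nontrivial_iff_card hWp).1 hnt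
  obtain ⟨b, hb, hne⟩ := hG.exists_fixed_point_of_prime_dvd_card_of_fixed_point W
    (by rw [hcard]; exact dvd_pow_self 3 hm.ne') (a := 1) (by
      intro g
      exact Subtype.ext (by rw [hsm]; exact map_one (actC g)))
  refine ⟨b, fun h => hne (Subtype.ext h.symm), hPW b b.2, fun g => ?_⟩
  have := congrArg Subtype.val (hb g)
  rw [hsm] at this
  exact this

end

theorem a5 : P_A5 := by
  intro M L _ _ _ _ _ n hn σ hσ hcomm hζ S hne hcub hmul hG hS hdesc z hz hnorm
  by_contra hcon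
  classical
  -- the predicate on the classes
  set P : Lˣ ⧸ Cu L → Prop := fun y => ∃ u : Lˣ, QuotientGroup.mk u = y ∧ S u ∧
    ∃ a : L, (u : L) * σ u = a ^ 3 with hP
  have hcu : ∀ u : Lˣ, (QuotientGroup.mk u : Lˣ ⧸ Cu L) = 1 ↔ ∃ a : L, (u : L) = a ^ 3 := by
    intro u
    rw [QuotientGroup.eq_one_iff]
    constructor
    · rintro ⟨w, rfl⟩
      exact ⟨w, by simp⟩
    · rintro ⟨a, ha⟩
      have ha0 : a ≠ 0 := by
        rintro rfl
        exact u.ne_zero (by rw [ha]; norm_num)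
      exact ⟨Units.mk0 a ha0, Units.ext (by simp [ha])⟩
  have hz0 := hne z hz
  obtain ⟨y, hy1, ⟨u, rfl, hSu, b, hb⟩, hfix⟩ := exists_fixed (M := M) hn P
    ⟨1, rfl, by simpa using hcub 1 one_ne_zero, 1, by simp⟩
    (by
      rintro _ _ ⟨u, rfl, hu, a, ha⟩ ⟨w, rfl, hw, b, hb⟩
      refine ⟨u * w, rfl, by simpa using hmul _ _ hu hw, a * b, ?_⟩
      rw [Units.val_mul, map_mul, mul_pow, ← ha, ← hb]
      ring)
    (by
      rintro g _ ⟨u, rfl, hu, a, ha⟩
      refine ⟨Units.map (g : L →* L) u, rfl, hG g _ hu, g a, ?_⟩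
      change g (u : L) * σ (g (u : L)) = g a ^ 3
      rw [hcomm, ← map_mul, ha, map_pow])
    (z := QuotientGroup.mk (Units.mk0 z hz0)) (by
      rw [Ne, hcu]
      exact hcon)
    ⟨Units.mk0 z hz0, rfl, hz, hnorm⟩
  rw [Ne, hcu] at hy1
  have hu0 : (u : L) ≠ 0 := u.ne_zero
  have hσu0 : σ (u : L) ≠ 0 := (map_ne_zero σ).2 hu0
  -- the antisymmetric element
  set t : L := (u : L) / σ u with ht
  have ht0 : t ≠ 0 := div_ne_zero hu0 hσu0
  have hσt : σ t = t⁻¹ := by
    rw [ht, map_div₀, hσ, inv_div]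
  have hb0 : b ≠ 0 := by
    rintro rfl
    rw [zero_pow (by norm_num)] at hb
    exact (mul_ne_zero hu0 hσu0) hb
  have hSinv : ∀ a, S a → S a⁻¹ := by
    intro a ha
    have ha0 := hne a ha
    have h1 : a⁻¹ = a * a * (a⁻¹) ^ 3 := by field_simp
    rw [h1]
    exact hmul _ _ (hmul _ _ ha ha) (hcub _ (inv_ne_zero ha0))
  have hSt : S t := by
    rw [ht, div_eq_mul_inv]
    exact hmul _ _ hSu (hSinv _ (hS _ hSu))
  have htu : t = (u : L) ^ 2 / b ^ 3 := by
    rw [ht, ← hb]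
    field_simp
  have htc : ¬ ∃ a : L, t = a ^ 3 := by
    rintro ⟨a, ha⟩
    apply hy1
    have ha0 : a ≠ 0 := by
      rintro rfl
      rw [zero_pow (by norm_num)] at ha
      exact ht0 ha
    refine ⟨u / (a * b), ?_⟩
    rw [htu] at ha
    have h2 : (u : L) ^ 2 = (a * b) ^ 3 := by
      rw [mul_pow, ← ha]
      field_simp
    rw [div_pow, ← h2]
    field_simp
  -- the cocycle
  have hfix' : ∀ g : Gal(L/M), ∃ c : L, g (u : L) = u * c ^ 3 := by
    intro g
    have h1 := hfix g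
    rw [smul_def', actC_mk, QuotientGroup.eq] at h1
    obtain ⟨w, hw⟩ := h1
    have hw' : (w : L) ^ 3 = (g (u : L))⁻¹ * u := by
      have := congrArg Units.val hw
      simpa using this
    have hg0 : g (u : L) ≠ 0 := (map_ne_zero g).2 hu0
    have hw0 : (w : L) ≠ 0 := w.ne_zero
    refine ⟨(w : L)⁻¹, ?_⟩
    rw [inv_pow, hw']
    field_simp
  have hex : ∀ g : Gal(L/M), ∃ d : Lˣ, g t = t * (d : L) ^ 3 ∧ σ (d : L) = (d : L)⁻¹ := by
    intro g
    obtain ⟨c, hc⟩ := hfix' g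
    have hc0 : c ≠ 0 := by
      rintro rfl
      rw [zero_pow (by norm_num), mul_zero] at hc
      exact hu0 ((map_eq_zero g).1 hc)
    have hσc0 : σ c ≠ 0 := (map_ne_zero σ).2 hc0
    refine ⟨Units.mk0 (c / σ c) (div_ne_zero hc0 hσc0), ?_, ?_⟩
    · rw [Units.val_mk0, ht, map_div₀, ← hcomm, hc, map_mul, map_pow]
      field_simp
    · rw [Units.val_mk0, map_div₀, hσ, inv_div]
  choose d hd hσd using hex
  have hcoc : groupCohomology.IsMulCocycle₁ (fun g => d g) := by
    intro g h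
    have h1 : (t : L) * (d (g * h) : L) ^ 3 = t * ((d g : L) * g (d h : L)) ^ 3 := by
      rw [← hd (g * h), AlgEquiv.mul_apply, hd h, map_mul, map_pow, hd g]
      ring
    have h2 := mul_left_cancel₀ ht0 h1
    set ρ : L := (d (g * h) : L) / ((d g : L) * g (d h : L)) with hρ
    have hg0 : g (d h : L) ≠ 0 := (map_ne_zero g).2 (d h).ne_zero
    have hp0 : (d g : L) * g (d h : L) ≠ 0 := mul_ne_zero (d g).ne_zero hg0
    have hρ3 : ρ ^ 3 = 1 := by
      rw [hρ, div_pow, h2, div_self (pow_ne_zero 3 hp0)]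
    have hρσ : σ ρ = ρ⁻¹ := by
      rw [hρ, map_div₀, map_mul, hσd, hσd, hcomm, hσd, map_inv₀, inv_div]
      field_simp
    rw [hζ ρ hρ3] at hρσ
    have hρ0 : ρ ≠ 0 := by
      intro h0
      rw [h0] at hρ3
      norm_num at hρ3
    have hρ2 : ρ ^ 2 = 1 := by
      rw [pow_two]
      nth_rewrite 2 [hρσ]
      exact mul_inv_cancel₀ hρ0
    have hρ1 : ρ = 1 := by
      calc ρ = ρ ^ 3 / ρ ^ 2 := by field_simp
        _ = 1 := by rw [hρ3, hρ2, div_one]
    apply Units.ext
    have h3 : (d (g * h) : L) = (d g : L) * g (d h : L) := by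
      rw [hρ, div_eq_one_iff_eq hp0] at hρ1
      exact hρ1
    rw [h3, mul_comm]
    rfl
  obtain ⟨e, he⟩ := groupCohomology.isMulCoboundary₁_of_isMulCocycle₁_of_aut_to_units _ hcoc
  have he' : ∀ g : Gal(L/M), g (e : L) = (d g : L) * e := by
    intro g
    have h1 := he g
    rw [div_eq_iff_eq_mul] at h1
    have h2 := congrArg Units.val h1
    exact h2
  -- the invariant element
  set m0 : L := t / (e : L) ^ 3 with hm0
  have hinv : ∀ g : Gal(L/M), g m0 = m0 := by
    intro g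
    rw [hm0, map_div₀, map_pow, he', hd]
    have := (d g).ne_zero
    have := e.ne_zero
    field_simp
  set m1 : L := m0 / σ m0 with hm1
  have hm00 : m0 ≠ 0 := div_ne_zero ht0 (pow_ne_zero 3 e.ne_zero)
  have hσm00 : σ m0 ≠ 0 := (map_ne_zero σ).2 hm00
  have hinv1 : ∀ g : Gal(L/M), g m1 = m1 := by
    intro g
    rw [hm1, map_div₀, ← hcomm, hinv]
  obtain ⟨m, hm⟩ : ∃ m : M, algebraMap M L m = m1 := by
    have := (IsGalois.mem_bot_iff_fixed (F := M) m1).2 hinv1
    exact this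
  have hSm0 : S m0 := by
    rw [hm0, div_eq_mul_inv, ← inv_pow]
    exact hmul _ _ hSt (hcub _ (inv_ne_zero e.ne_zero))
  have hSm1 : S m1 := by
    rw [hm1, div_eq_mul_inv]
    exact hmul _ _ hSm0 (hSinv _ (hS _ hSm0))
  obtain ⟨a, ha⟩ := hdesc m (by rw [hm]; exact hSm1) (by
    rw [hm, hm1, map_div₀, hσ, inv_div])
  rw [hm] at ha
  have hσe0 : σ (e : L) ≠ 0 := (map_ne_zero σ).2 e.ne_zero
  have he0 : (e : L) ≠ 0 := e.ne_zero
  have ha0 : a ≠ 0 := by
    rintro rfl
    rw [zero_pow (by norm_num)] at ha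
    exact (div_ne_zero hm00 hσm00) ha
  -- `m1 = t² (σ e / e)³`
  have h1 : m1 = t ^ 2 * (σ (e : L) / e) ^ 3 := by
    rw [hm1, hm0, map_div₀, map_pow, hσt]
    field_simp
  apply htc
  refine ⟨t * (σ (e : L) / e) / a, ?_⟩
  rw [div_pow, mul_pow, ← ha, h1]
  field_simp

end Pool.Agent.W2helper24.TQ
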