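import Mathlib
import Pool.Agent.W2helper24.TQ.Stm
import Pool.Agent.Y696.Bld
import Pool.Agent.Y696.Fac

/-!
# Ramification in the tower (project TQ, helper24)
-/

set_option autoImplicit false

namespace Pool.Agent.W2helper24.TQ

open NumberField IsDedekindDomain WithZero
open Pool.Agent.Y696 (exists_above val_of_unr val_prime_F val_three_F sq_exp und und_lies val_aut
  mem_under_of_lies)

section gen
variable {B A : Type} [Field B] [NumberField B] [Field A] [NumberField A] [Algebra B A]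

lemma idx_of_unr {v : HeightOneSpectrum (𝓞 B)} {w : HeightOneSpectrum (𝓞 A)}
    (hlo : w.asIdeal.LiesOver v.asIdeal) (h : Algebra.IsUnramifiedAt (𝓞 B) w.asIdeal) :
    v.asIdeal.ramificationIdx' w.asIdeal = 1 := by
  rw [Ideal.ramificationIdx'_eq_ramificationIdx _ _ v.ne_bot]
  exact Ideal.ramificationIdx_eq_one _ _

lemma idx_of_inertia [IsGalois B A] {v : HeightOneSpectrum (𝓞 B)} {w : HeightOneSpectrum (𝓞 A)}
    (hlo : w.asIdeal.LiesOver v.asIdeal)
    (h : ∀ g : Gal(A/B), (∀ x : 𝓞 A, g • x - x ∈ w.asIdeal) → g = 1) :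
    v.asIdeal.ramificationIdx' w.asIdeal = 1 := by
  rw [Ideal.ramificationIdx'_eq_ramificationIdx _ _ v.ne_bot]
  let p := v.asIdeal
  have hpp : p.IsPrime := v.isPrime
  have hp0 : p ≠ ⊥ := v.ne_bot
  have : p.IsMaximal := hpp.isMaximal hp0
  have : Finite (𝓞 B ⧸ p) := Ideal.finiteQuotientOfFreeOfNeBot p hp0
  have : Finite p.ResidueField := by
    have := Ideal.bijective_algebraMap_quotient_residueField p
    exact Finite.of_surjective _ this.2
  have h2 := Ideal.card_inertia_eq_ramificationIdxIn (G := Gal(A/B)) p w.asIdeal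
  rw [Ideal.ramificationIdxIn_eq_ramificationIdx p w.asIdeal Gal(A/B)] at h2
  rw [← h2]
  have h3 : Ideal.inertia Gal(A/B) w.asIdeal = ⊥ := by
    rw [eq_bot_iff]
    intro g hg
    rw [AddSubgroup.mem_inertia] at hg
    exact (Subgroup.mem_bot).2 (h g hg)
  rw [h3]
  exact Subgroup.card_bot

end gen

section tow
variable {K F M L : Type} [Field K] [NumberField K] [IsCyclotomicExtension {3} ℚ K]
  [Field F] [NumberField F] [Algebra K F] [IsGalois K F]
  [Field M] [NumberField M]
  [Algebra K M] [Field L] [NumberField L] [Algebra K L] [Algebra F L] [Algebra M L]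
  [IsScalarTower K F L] [IsScalarTower K M L] [IsGalois M L] {i : M} {σM : M ≃ₐ[K] M}
  {σ : L ≃ₐ[F] L} {n : ℕ}

omit [IsCyclotomicExtension {3} ℚ K] [IsGalois K F] [IsGalois M L] in
lemma Tow.i_ne (T : Tow K F M L i σM σ n) : i ≠ 0 := by
  intro h
  have := T.hi
  rw [h] at this
  norm_num at this

omit [IsCyclotomicExtension {3} ℚ K] [IsGalois K F] [IsGalois M L] in
lemma Tow.sL (T : Tow K F M L i σM σ n) : σ (algebraMap M L i) = -algebraMap M L i := by
  rw [T.res, T.si, map_neg]

omit [IsCyclotomicExtension {3} ℚ K] [IsGalois K F] [IsGalois M L] in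
lemma Tow.galF (T : Tow K F M L i σM σ n) : IsGalois F L := by
  have hfin : FiniteDimensional F L := Module.Finite.of_restrictScalars_finite ℚ F L
  refine IsGalois.of_fixedField_eq_bot F L ?_
  rw [eq_bot_iff]
  intro z hz
  have h1 : σ z = z := hz ⟨σ, trivial⟩
  obtain ⟨f, hf⟩ := T.fixF z h1
  exact IntermediateField.mem_bot.2 ⟨f, hf⟩

omit [IsCyclotomicExtension {3} ℚ K] [IsGalois K F] [IsGalois M L] in
lemma Tow.galK (T : Tow K F M L i σM σ n) : IsGalois K M := by
  have hfin : FiniteDimensional K M := Module.Finite.of_restrictScalars_finite ℚ K M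
  refine IsGalois.of_fixedField_eq_bot K M ?_
  rw [eq_bot_iff]
  intro z hz
  have h1 : σM z = z := hz ⟨σM, trivial⟩
  obtain ⟨f, hf⟩ := T.fixK z h1
  exact IntermediateField.mem_bot.2 ⟨f, hf⟩

omit [IsCyclotomicExtension {3} ℚ K] [IsGalois K F] [IsGalois M L] in
/-- the automorphisms of `L / F` -/
lemma Tow.aut_cases (T : Tow K F M L i σM σ n) (g : Gal(L/F)) : g = 1 ∨ g = σ := by
  have h1 : (g (algebraMap M L i)) ^ 2 = -1 := by
    rw [← map_pow, ← map_pow, T.hi, map_neg, map_one, map_neg, map_one]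
  have h2 : (algebraMap M L i) ^ 2 = -1 := by rw [← map_pow, T.hi, map_neg, map_one]
  have h3 : (g (algebraMap M L i) - algebraMap M L i) * (g (algebraMap M L i) + algebraMap M L i) = 0 := by
    linear_combination h1 - h2
  rcases mul_eq_zero.1 h3 with h | h
  · left
    ext z
    obtain ⟨a, b, rfl⟩ := T.gen z
    rw [map_add, map_mul, AlgEquiv.commutes, AlgEquiv.commutes, sub_eq_zero.1 h]
    rfl
  · right
    ext z
    obtain ⟨a, b, rfl⟩ := T.gen z
    rw [map_add, map_mul, AlgEquiv.commutes, AlgEquiv.commutes, map_add, map_mul,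
      AlgEquiv.commutes, AlgEquiv.commutes, T.sL, eq_neg_of_add_eq_zero_left h]

/-- the square root of `-1` in the ring of integers -/
noncomputable def iO (T : Tow K F M L i σM σ n) : 𝓞 M :=
  ⟨i, by
    refine IsIntegral.of_pow (n := 2) (by norm_num) ?_
    rw [T.hi]
    exact isIntegral_one.neg⟩

omit [IsCyclotomicExtension {3} ℚ K] [IsGalois K F] [IsGalois M L] in
lemma iO_sq (T : Tow K F M L i σM σ n) : iO T ^ 2 = -1 := by
  apply RingOfIntegers.ext
  change i ^ 2 = -1
  exact T.hi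

omit [IsCyclotomicExtension {3} ℚ K] [IsGalois K F] [IsGalois M L] in
/-- `L / F` is unramified at the primes that do not divide `2` -/
lemma Tow.idx_LF (T : Tow K F M L i σM σ n) {v : HeightOneSpectrum (𝓞 F)}
    {w : HeightOneSpectrum (𝓞 L)} (hlo : w.asIdeal.LiesOver v.asIdeal)
    (h2 : (2 : 𝓞 L) ∉ w.asIdeal) : v.asIdeal.ramificationIdx' w.asIdeal = 1 := by
  have := T.galF
  refine idx_of_inertia hlo fun g hg => ?_
  rcases T.aut_cases g with h | h
  · exact h
  · exfalso
    have h3 := hg (algebraMap (𝓞 M) (𝓞 L) (iO T))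
    have h4 : g • (algebraMap (𝓞 M) (𝓞 L) (iO T)) = -algebraMap (𝓞 M) (𝓞 L) (iO T) := by
      apply RingOfIntegers.ext
      rw [h]
      exact T.sL
    rw [h4] at h3
    have h5 := w.asIdeal.mul_mem_left (algebraMap (𝓞 M) (𝓞 L) (iO T)) h3
    have h6 : algebraMap (𝓞 M) (𝓞 L) (iO T) ^ 2 = -1 := by
      rw [← map_pow, iO_sq, map_neg, map_one]
    apply h2
    have h7 : algebraMap (𝓞 M) (𝓞 L) (iO T) * (-algebraMap (𝓞 M) (𝓞 L) (iO T) -
        algebraMap (𝓞 M) (𝓞 L) (iO T)) = 2 := by linear_combination -2 * h6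
    rwa [h7] at h5

omit [NumberField M] [Algebra K M] [NumberField L] [Algebra F L] [Algebra M L] [IsGalois K F]
  [IsScalarTower K F L] [IsScalarTower K M L] [IsGalois M L] [Algebra K L] [Field M] [Field L] in
/-- the valuation of `3` in `F` -/
lemma val_three_up (hR : Ram K F) {v : HeightOneSpectrum (𝓞 F)} (hv : (3 : 𝓞 F) ∈ v.asIdeal) :
    v.valuation F 3 = exp (-2 : ℤ) := by
  have hlo := und_lies (F := K) v
  have h3 : (3 : 𝓞 K) ∈ (und (F := K) v).asIdeal := by
    rw [mem_under_of_lies hlo, map_ofNat]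
    exact hv
  have hun : Algebra.IsUnramifiedAt (𝓞 K) v.asIdeal := by
    by_contra h
    exact (hR v h).1 hv
  have h4 := val_of_unr hlo (idx_of_unr hlo hun) (3 : K)
  rw [map_ofNat] at h4
  rw [h4, val_three_F _ h3]

omit [NumberField M] [Algebra K M] [NumberField L] [Algebra F L] [Algebra M L] [IsGalois K F]
  [IsScalarTower K F L] [IsScalarTower K M L] [IsGalois M L] [Algebra K L] [Field M] [Field L] in
/-- the valuation of `2` in `F` -/
lemma val_two_up (hR : Ram K F) {v : HeightOneSpectrum (𝓞 F)} (hv : (2 : 𝓞 F) ∈ v.asIdeal) :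
    v.valuation F 2 = exp (-1 : ℤ) := by
  have hlo := und_lies (F := K) v
  have h3 : ((2 : ℕ) : 𝓞 K) ∈ (und (F := K) v).asIdeal := by
    rw [mem_under_of_lies hlo, map_natCast]
    exact_mod_cast hv
  have hun : Algebra.IsUnramifiedAt (𝓞 K) v.asIdeal := by
    by_contra h
    refine (hR v h).2 1 ?_
    have : ((1 : 𝓞 K) ^ 2 + 1) = 2 := by norm_num
    rw [this, map_ofNat]
    exact hv
  have h4 := val_of_unr hlo (idx_of_unr hlo hun) (2 : K)
  rw [map_ofNat] at h4
  have h5 := val_prime_F Nat.prime_two (by norm_num) _ h3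
  rw [h4]
  exact_mod_cast h5

omit [IsGalois K F] [IsGalois M L] in
lemma val_three_L (hR : Ram K F) (T : Tow K F M L i σM σ n) {w : HeightOneSpectrum (𝓞 L)}
    (hw : (3 : 𝓞 L) ∈ w.asIdeal) : w.valuation L 3 = exp (-2 : ℤ) := by
  have hlo := und_lies (F := F) w
  have h3 : (3 : 𝓞 F) ∈ (und (F := F) w).asIdeal := by
    rw [mem_under_of_lies hlo, map_ofNat]
    exact hw
  have h2 : (2 : 𝓞 L) ∉ w.asIdeal := by
    intro h
    apply w.isPrime.ne_top
    rw [Ideal.eq_top_iff_one]
    have := w.asIdeal.sub_mem hw h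
    norm_num at this
    exact this
  have h4 := val_of_unr hlo (T.idx_LF hlo h2) (3 : F)
  rw [map_ofNat] at h4
  rw [h4, val_three_up hR h3]

omit [IsCyclotomicExtension {3} ℚ K] [IsGalois K F] in
/-- the inertia groups of `L / M` -/
lemma Tow.idx_LM (T : Tow K F M L i σM σ n) [IsGalois K F] {u : HeightOneSpectrum (𝓞 M)}
    {w : HeightOneSpectrum (𝓞 L)} (hlo : w.asIdeal.LiesOver u.asIdeal)
    (hun : Algebra.IsUnramifiedAt (𝓞 K) (und (F := F) w).asIdeal) :
    u.asIdeal.ramificationIdx' w.asIdeal = 1 := by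
  refine idx_of_inertia hlo fun g hg => ?_
  -- the restriction of `g` to `F`
  have hF : ∀ f : F, ∃ f' : F, g (algebraMap F L f) = algebraMap F L f' := by
    intro f
    obtain ⟨f', hf'⟩ := T.fixF (g (algebraMap F L f)) (by
      rw [T.comm, AlgEquiv.commutes])
    exact ⟨f', hf'.symm⟩
  have hinj : Function.Injective (algebraMap F L) := (algebraMap F L).injective
  choose r hr using hF
  have hgK : ∀ k : K, g (algebraMap K L k) = algebraMap K L k := by
    intro k
    rw [IsScalarTower.algebraMap_apply K M L, AlgEquiv.commutes]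
  let rh : F →ₐ[K] F :=
    { toFun := r
      map_one' := hinj (by rw [← hr, map_one, map_one])
      map_mul' := fun a b => hinj (by rw [← hr, map_mul, map_mul, map_mul, hr, hr])
      map_zero' := hinj (by rw [← hr, map_zero, map_zero])
      map_add' := fun a b => hinj (by rw [← hr, map_add, map_add, map_add, hr, hr])
      commutes' := fun k => hinj (by
        rw [← hr, ← IsScalarTower.algebraMap_apply K F L, hgK]) }
  let re : Gal(F/K) := AlgEquiv.ofBijective rh (Algebra.IsAlgebraic.algHom_bijective rh)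
  have hre : ∀ f, algebraMap F L (re f) = g (algebraMap F L f) := fun f => (hr f).symm
  have h1 : re = 1 := by
    refine Pool.Agent.Y696.unr_g (und (F := F) w) hun fun x => ?_
    rw [mem_under_of_lies (und_lies w)]
    have h2 := hg (algebraMap (𝓞 F) (𝓞 L) x)
    convert h2 using 1
    apply RingOfIntegers.ext
    change algebraMap F L (re (x : F) - x) = g (algebraMap F L x) - algebraMap F L x
    rw [map_sub, hre]
  ext z
  obtain ⟨a, b, rfl⟩ := T.gen z
  have h2 : ∀ f, g (algebraMap F L f) = algebraMap F L f := by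
    intro f
    rw [← hre, h1]
    rfl
  rw [map_add, map_mul, h2, h2, AlgEquiv.commutes]
  rfl

end tow

/-! ### Descent of the local conditions -/

section val
variable {B : Type} [Field B] [NumberField B]

lemma exp_rep' {x : WithZero (Multiplicative ℤ)} (h : x ≠ 0) : ∃ n : ℤ, x = exp n :=
  ⟨WithZero.log x, (WithZero.exp_log h).symm⟩

/-- elements with given valuation -/
lemma exists_val (u : HeightOneSpectrum (𝓞 B)) (k : ℤ) : ∃ a : B, u.valuation B a = exp k := by
  obtain ⟨π, hπ⟩ := u.valuation_exists_uniformizer B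
  refine ⟨π ^ (-k), ?_⟩
  rw [map_zpow₀, hπ, ← exp_zsmul]
  congr 1
  simp

/-- Fermat's theorem -/
lemma fermat (u : HeightOneSpectrum (𝓞 B)) {t : B} (ht : u.valuation B t = 1) :
    u.valuation B (t ^ (Nat.card (𝓞 B ⧸ u.asIdeal) - 1) - 1) < 1 := by
  obtain ⟨x, hx⟩ := HeightOneSpectrum.exists_valuation_sub_lt_of_integer (K := B) u ht.le 1
  set N := Nat.card (𝓞 B ⧸ u.asIdeal) - 1 with hN
  have hx' : u.valuation B (algebraMap (𝓞 B) B x - t) < 1 := hx
  have hmax : u.asIdeal.IsMaximal := u.isPrime.isMaximal u.ne_bot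
  let _ : Field (𝓞 B ⧸ u.asIdeal) := Ideal.Quotient.field _
  have : Finite (𝓞 B ⧸ u.asIdeal) := Ideal.finiteQuotientOfFreeOfNeBot u.asIdeal u.ne_bot
  let _ : Fintype (𝓞 B ⧸ u.asIdeal) := Fintype.ofFinite _
  have hxu : x ∉ u.asIdeal := by
    intro h
    have h1 : u.valuation B (algebraMap (𝓞 B) B x) < 1 :=
      (HeightOneSpectrum.valuation_lt_one_iff_mem (K := B) u x).2 h
    have h2 : u.valuation B t < 1 := by
      have h3 : t = algebraMap (𝓞 B) B x - (algebraMap (𝓞 B) B x - t) := by ring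
      rw [h3]
      exact Valuation.map_sub_lt _ h1 hx'
    rw [ht] at h2
    exact lt_irrefl _ h2
  have h4 : x ^ N - 1 ∈ u.asIdeal := by
    rw [← Ideal.Quotient.eq_zero_iff_mem, map_sub, map_pow, map_one, sub_eq_zero, hN,
      Nat.card_eq_fintype_card]
    refine FiniteField.pow_card_sub_one_eq_one _ ?_
    rwa [Ne, Ideal.Quotient.eq_zero_iff_mem]
  have h5 : u.valuation B (algebraMap (𝓞 B) B x ^ N - 1) < 1 := by
    have := (HeightOneSpectrum.valuation_lt_one_iff_mem (K := B) u (x ^ N - 1)).2 h4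
    have e : algebraMap (𝓞 B) B x ^ N - 1 = algebraMap (𝓞 B) B (x ^ N - 1) := by
      rw [map_sub, map_pow, map_one]
    rw [e]
    exact this
  have h6 : u.valuation B (algebraMap (𝓞 B) B x ^ N - t ^ N) < 1 := by
    obtain ⟨c, hc⟩ : ∃ c : B, algebraMap (𝓞 B) B x ^ N - t ^ N = (algebraMap (𝓞 B) B x - t) * c ∧
        u.valuation B c ≤ 1 := by
      refine ⟨∑ j ∈ Finset.range N, algebraMap (𝓞 B) B x ^ j * t ^ (N - 1 - j), ?_, ?_⟩
      · rw [mul_comm]
        exact (geom_sum₂_mul _ _ N).symm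
      · refine Valuation.map_sum_le _ fun j _ => ?_
        rw [map_mul, map_pow, map_pow, ht, one_pow, mul_one]
        exact pow_le_one' (u.valuation_le_one (K := B) x) _
    rw [hc.1, map_mul]
    exact mul_lt_one_of_nonneg_of_lt_one_left zero_le hx' hc.2
  have h7 : t ^ N - 1 = (algebraMap (𝓞 B) B x ^ N - 1) - (algebraMap (𝓞 B) B x ^ N - t ^ N) := by
    ring
  rw [h7]
  exact Valuation.map_sub_lt _ h5 h6

omit [NumberField B] in
lemma natCast_le (v : Valuation B (WithZero (Multiplicative ℤ))) (k : ℕ) : v (k : B) ≤ 1 := by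
  induction k with
  | zero => simp
  | succ k ih =>
    push_cast
    exact Valuation.map_add_le _ ih (by rw [map_one])

omit [NumberField B] in
/-- the key step in the descent of the condition at three -/
lemma one_add_pow_val (v : Valuation B (WithZero (Multiplicative ℤ)))
    {b : B} (hb : v b < 1) {k : ℕ} (hk : v (k : B) = 1)
    (h : v ((1 + b) ^ k - 1) ≤ exp (-2 : ℤ)) : v b ≤ exp (-2 : ℤ) := by
  by_cases hb0 : b = 0
  · rw [hb0, map_zero]
    exact zero_le
  obtain ⟨m, hm⟩ := exp_rep' ((Valuation.ne_zero_iff v).2 hb0)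
  rw [hm, ← exp_zero, exp_lt_exp] at hb
  rw [hm, exp_le_exp]
  by_contra hcon
  have hm1 : m = -1 := by omega
  subst hm1
  obtain ⟨c, hc, hc1⟩ : ∃ c : B, (1 + b) ^ k - 1 = k * b + b ^ 2 * c ∧ v c ≤ 1 := by
    have hvb : v b ≤ 1 := by rw [hm, ← exp_zero, exp_le_exp]; norm_num
    have hv1b : v (1 + b) ≤ 1 := Valuation.map_add_le _ (by rw [map_one]) hvb
    clear h hk
    induction k with
    | zero => exact ⟨0, by simp, by rw [map_zero]; exact zero_le⟩
    | succ k ih =>
      obtain ⟨c, hc, hc1⟩ := ih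
      refine ⟨c * (1 + b) + k, ?_, ?_⟩
      · push_cast
        linear_combination (1 + b) * hc
      · refine Valuation.map_add_le _ ?_ ?_
        · rw [map_mul]
          exact mul_le_one' hc1 hv1b
        · exact natCast_le v k
  have h1 : v (k * b) = exp (-1 : ℤ) := by rw [map_mul, hk, one_mul, hm]
  have h2 : v (b ^ 2 * c) ≤ exp (-2 : ℤ) := by
    rw [map_mul, map_pow, hm]
    calc exp (-1 : ℤ) ^ 2 * v c ≤ exp (-1 : ℤ) ^ 2 * 1 := by gcongr
      _ = exp (-2 : ℤ) := by rw [mul_one, ← exp_nsmul]; rfl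
  have h3 : v ((1 + b) ^ k - 1) = exp (-1 : ℤ) := by
    rw [hc, Valuation.map_add_eq_of_lt_left, h1]
    rw [h1]
    exact h2.trans_lt (by rw [exp_lt_exp]; norm_num)
  rw [h3, exp_le_exp] at h
  omega

end val

section final
variable {K F M L : Type} [Field K] [NumberField K] [IsCyclotomicExtension {3} ℚ K]
  [Field F] [NumberField F] [Algebra K F] [IsGalois K F]
  [Field M] [NumberField M]
  [Algebra K M] [Field L] [NumberField L] [Algebra K L] [Algebra F L] [Algebra M L]
  [IsScalarTower K F L] [IsScalarTower K M L] [IsGalois M L] {i : M} {σM : M ≃ₐ[K] M}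
  {σ : L ≃ₐ[F] L} {n : ℕ}

omit [IsGalois M L] [IsGalois K F] [IsCyclotomicExtension {3} ℚ K] in
/-- the primes over which `F / K` is ramified are stable -/
lemma Tow.stable (T : Tow K F M L i σM σ n) {u : HeightOneSpectrum (𝓞 M)}
    (hP : ∀ x : 𝓞 K, algebraMap (𝓞 K) (𝓞 M) (x ^ 2 + 1) ∉ u.asIdeal) (m : M) :
    u.valuation M (σM m) = u.valuation M m := by
  set s : 𝓞 M ≃+* 𝓞 M := RingOfIntegers.mapRingEquiv (σM : M ≃+* M) with hs
  have hscoe : ∀ x : 𝓞 M, ((s x : 𝓞 M) : M) = σM (x : M) := fun x => rfl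
  have hσσ : ∀ x : M, σM (σM x) = x := by
    intro x
    apply (algebraMap M L).injective
    rw [← T.res, ← T.res, T.sq]
  have hss : ∀ x : 𝓞 M, s (s x) = x := fun x => RingOfIntegers.ext (by rw [hscoe, hscoe, hσσ])
  -- the conjugate prime
  have hbot : u.asIdeal.comap (s : 𝓞 M →+* 𝓞 M) ≠ ⊥ := by
    intro h
    obtain ⟨z, hz, hz0⟩ := Submodule.exists_mem_ne_zero_of_ne_bot u.ne_bot
    have h1 : s z ∈ u.asIdeal.comap (s : 𝓞 M →+* 𝓞 M) := by
      rw [Ideal.mem_comap]
      change s (s z) ∈ _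
      rw [hss]
      exact hz
    rw [h, Ideal.mem_bot] at h1
    exact hz0 ((map_eq_zero_iff _ s.injective).1 h1)
  let u' : HeightOneSpectrum (𝓞 M) := ⟨u.asIdeal.comap (s : 𝓞 M →+* 𝓞 M), inferInstance, hbot⟩
  have hu' : ∀ x, x ∈ u'.asIdeal ↔ s x ∈ u.asIdeal := fun x => Iff.rfl
  have heq : u' = u := by
    by_contra hne
    have hmax : u.asIdeal.IsMaximal := u.isPrime.isMaximal u.ne_bot
    have hmax' : u'.asIdeal.IsMaximal := u'.isPrime.isMaximal u'.ne_bot
    have hne' : u'.asIdeal ≠ u.asIdeal := fun h => hne (HeightOneSpectrum.ext h)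
    have hcop : IsCoprime u'.asIdeal u.asIdeal := Ideal.isCoprime_of_isMaximal hne'
    obtain ⟨a, ha, b, hb, hab⟩ := Ideal.isCoprime_iff_exists.1 hcop
    -- `a ∈ u'`, `b ∈ u`, `a + b = 1`
    set t : 𝓞 M := a * iO T with ht
    have htu' : s t ∈ u.asIdeal := by
      rw [← hu']
      exact u'.asIdeal.mul_mem_right _ ha
    have htu : t - iO T ∈ u.asIdeal := by
      have : t - iO T = -(b * iO T) := by
        rw [ht]
        linear_combination (iO T) * hab
      rw [this]
      exact u.asIdeal.neg_mem (u.asIdeal.mul_mem_right _ hb)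
    obtain ⟨k, hk⟩ := T.fixK ((t + s t : 𝓞 M) : M) (by
      have h1 : σM ((t + s t : 𝓞 M) : M) = ((s (t + s t) : 𝓞 M) : M) := rfl
      rw [h1, map_add, hss, add_comm])
    have hkint : IsIntegral ℤ k := by
      have h1 : IsIntegral ℤ (algebraMap K M k) := by
        rw [hk]
        exact (t + s t).isIntegral_coe
      exact (isIntegral_algebraMap_iff (algebraMap K M).injective).1 h1
    set x : 𝓞 K := ⟨k, hkint⟩ with hx
    have hxt : algebraMap (𝓞 K) (𝓞 M) x = t + s t := RingOfIntegers.ext hk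
    apply hP x
    rw [map_add, map_pow, hxt, map_one]
    have h2 : (t + s t) ^ 2 + 1 = (t - iO T + s t) * (t + s t + iO T) := by
      linear_combination iO_sq T
    rw [h2]
    exact u.asIdeal.mul_mem_right _ (u.asIdeal.add_mem htu htu')
  obtain ⟨u'', hu''⟩ := val_aut (σM : M ≃+* M) u
  have h3 : u'' = u := by
    apply HeightOneSpectrum.ext
    ext x
    rw [← HeightOneSpectrum.valuation_lt_one_iff_mem (K := M), ← hu'']
    have h4 : (σM : M ≃+* M) (x : M) = ((s x : 𝓞 M) : M) := rfl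
    rw [h4, HeightOneSpectrum.valuation_lt_one_iff_mem, ← hu', heq]
  rw [h3] at hu''
  exact hu'' m

/-- the local conditions descend -/
theorem a7 : P_A7 := by
  intro K F _ _ _ _ _ _ _ n hn hR M L _ _ _ _ _ _ _ _ _ _ _ _ i σM σ T
  refine ⟨fun v hv => val_two_up hR hv, fun θ hθ w hw => ?_, fun m hm hσ => ?_⟩
  · apply sq_exp
    rw [← map_pow, hθ, Valuation.map_neg, val_three_L hR T hw]
    rfl
  have hm0 : m ≠ 0 := by
    rintro rfl
    exact hm.ne (map_zero _)
  have hplace : ∀ u : HeightOneSpectrum (𝓞 M), ∃ w : HeightOneSpectrum (𝓞 L),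
      w.asIdeal.LiesOver u.asIdeal ∧ ((∀ x : M, w.valuation L (algebraMap M L x) = u.valuation M x) ∨
        ((3 : 𝓞 M) ∉ u.asIdeal ∧ u.valuation M m = 1)) := by
    intro u
    obtain ⟨w, hlo⟩ := exists_above (F := M) (K := L) u
    refine ⟨w, hlo, ?_⟩
    by_cases hun : Algebra.IsUnramifiedAt (𝓞 K) (und (F := F) w).asIdeal
    · left
      exact fun x => val_of_unr hlo (T.idx_LM hlo hun) x
    · right
      obtain ⟨h1, h2⟩ := hR _ hun
      have hloF := und_lies (F := F) w
      refine ⟨fun h3 => h1 ?_, ?_⟩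
      · rw [mem_under_of_lies hloF, map_ofNat]
        rw [mem_under_of_lies hlo, map_ofNat] at h3
        exact h3
      · have e : ∀ y : 𝓞 K, algebraMap (𝓞 F) (𝓞 L) (algebraMap (𝓞 K) (𝓞 F) y) =
            algebraMap (𝓞 M) (𝓞 L) (algebraMap (𝓞 K) (𝓞 M) y) := by
          intro y
          apply RingOfIntegers.ext
          change algebraMap F L (algebraMap K F (y : K)) = algebraMap M L (algebraMap K M (y : K))
          exact (IsScalarTower.algebraMap_apply K F L (y : K)).symm.trans
            (IsScalarTower.algebraMap_apply K M L (y : K))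
        have h4 := T.stable (u := u) (fun x hx => h2 x (by
          rw [mem_under_of_lies hloF, e]
          rwa [mem_under_of_lies hlo] at hx)) m
        rw [hσ, map_inv₀] at h4
        obtain ⟨k, hk⟩ := exp_rep' ((Valuation.ne_zero_iff (u.valuation M)).2 hm0)
        rw [hk, ← exp_neg, exp_inj] at h4
        have : k = 0 := by omega
        rw [hk, this, exp_zero]
  refine ⟨hm0, fun u => ?_, fun u hu a ha => ?_⟩
  · obtain ⟨w, hlo, h | ⟨-, h⟩⟩ := hplace u
    · obtain ⟨a, ha⟩ := hm.div w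
      have ha0 : a ≠ 0 := by
        rintro rfl
        rw [zero_pow (by norm_num), mul_zero, map_zero] at ha
        exact zero_ne_one ha
      obtain ⟨k, hk⟩ := exp_rep' ((Valuation.ne_zero_iff (w.valuation L)).2 ha0)
      obtain ⟨b, hb⟩ := exists_val u k
      refine ⟨b, ?_⟩
      rw [map_mul, map_pow, hb, ← hk, ← h m]
      rw [map_mul, map_pow] at ha
      exact ha
    · exact ⟨1, by rw [one_pow, mul_one, h]⟩
  · obtain ⟨w, hlo, h | ⟨h, -⟩⟩ := hplace u
    · have hw3 : (3 : 𝓞 L) ∈ w.asIdeal := by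
        rw [mem_under_of_lies hlo, map_ofNat] at hu
        exact hu
      have h3u : u.valuation M 3 = exp (-2 : ℤ) := by
        rw [← h, map_ofNat]
        exact val_three_L hR T hw3
      set t : M := m * a ^ 3 with ht
      have h1 := hm.loc w hw3 (algebraMap M L a) (by
        rw [← map_pow, ← map_mul, h]
        exact ha)
      rw [← map_pow, ← map_mul, ← map_pow, ← map_one (algebraMap M L), ← map_sub, h] at h1
      rw [← map_ofNat (algebraMap M L) 3, h, h3u] at h1
      rw [h3u]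
      -- the numbers of elements of the residue fields
      set Nu := Nat.card (𝓞 M ⧸ u.asIdeal) with hNu
      set Nw := Nat.card (𝓞 L ⧸ w.asIdeal) with hNw
      obtain ⟨f, hf0, hf⟩ : ∃ f : ℕ, f ≠ 0 ∧ Nw = Nu ^ f := by
        have hmaxu : u.asIdeal.IsMaximal := u.isPrime.isMaximal u.ne_bot
        have hmaxw : w.asIdeal.IsMaximal := w.isPrime.isMaximal w.ne_bot
        let _ : Field (𝓞 M ⧸ u.asIdeal) := Ideal.Quotient.field _
        let _ : Field (𝓞 L ⧸ w.asIdeal) := Ideal.Quotient.field _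
        have : Finite (𝓞 M ⧸ u.asIdeal) := Ideal.finiteQuotientOfFreeOfNeBot u.asIdeal u.ne_bot
        have : Finite (𝓞 L ⧸ w.asIdeal) := Ideal.finiteQuotientOfFreeOfNeBot w.asIdeal w.ne_bot
        have h5 := Module.natCard_eq_pow_finrank (K := 𝓞 M ⧸ u.asIdeal) (V := 𝓞 L ⧸ w.asIdeal)
        exact ⟨_, Module.finrank_pos.ne', h5⟩
      have hNu1 : 1 ≤ Nu := by
        have : Finite (𝓞 M ⧸ u.asIdeal) := Ideal.finiteQuotientOfFreeOfNeBot u.asIdeal u.ne_bot
        exact Nat.card_pos
      have h3Nu : (3 : ℕ) ∣ Nu := by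
        have hmaxu : u.asIdeal.IsMaximal := u.isPrime.isMaximal u.ne_bot
        have : Finite (𝓞 M ⧸ u.asIdeal) := Ideal.finiteQuotientOfFreeOfNeBot u.asIdeal u.ne_bot
        let _ : Field (𝓞 M ⧸ u.asIdeal) := Ideal.Quotient.field _
        let _ : Fintype (𝓞 M ⧸ u.asIdeal) := Fintype.ofFinite _
        have hchar : CharP (𝓞 M ⧸ u.asIdeal) 3 := by
          refine (CharP.charP_iff_prime_eq_zero Nat.prime_three).2 ?_
          rw [Nat.cast_ofNat, ← map_ofNat (Ideal.Quotient.mk u.asIdeal),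
            Ideal.Quotient.eq_zero_iff_mem]
          exact hu
        have : Fact (Nat.Prime 3) := ⟨Nat.prime_three⟩
        obtain ⟨k, -, hk⟩ := FiniteField.card (𝓞 M ⧸ u.asIdeal) 3
        rw [hNu, Nat.card_eq_fintype_card, hk]
        exact dvd_pow_self 3 k.pos.ne'
      -- the quotient of the exponents
      set k := ∑ j ∈ Finset.range f, Nu ^ j with hk
      have hkm : (Nu - 1) * k = Nw - 1 := by
        have h6 : ((Nu - 1 : ℕ) : ℤ) = (Nu : ℤ) - 1 := by push_cast [Nat.cast_sub hNu1]; rfl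
        have hNw1 : 1 ≤ Nw := by rw [hf]; exact Nat.one_le_pow _ _ hNu1
        have h7 : ((Nw - 1 : ℕ) : ℤ) = (Nw : ℤ) - 1 := by push_cast [Nat.cast_sub hNw1]; rfl
        have h8 : (((Nu - 1) * k : ℕ) : ℤ) = ((Nw - 1 : ℕ) : ℤ) := by
          rw [Nat.cast_mul, h6, h7, hf, hk]
          push_cast
          exact mul_geom_sum (Nu : ℤ) f
        exact_mod_cast h8
      have hk3 : ¬ 3 ∣ k := by
        obtain ⟨g, rfl⟩ := Nat.exists_eq_succ_of_ne_zero hf0
        rw [hk, Finset.sum_range_succ']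
        simp only [pow_zero]
        have h9 : 3 ∣ ∑ j ∈ Finset.range g, Nu ^ (j + 1) :=
          Finset.dvd_sum fun j _ => dvd_pow h3Nu (Nat.succ_ne_zero j)
        omega
      have hvk : u.valuation M (k : M) = 1 := by
        have h9 : ((k : ℕ) : 𝓞 M) ∉ u.asIdeal := by
          intro h10
          have hcop : Nat.Coprime k 3 := (Nat.Prime.coprime_iff_not_dvd Nat.prime_three).2 hk3 |>.symm
          obtain ⟨a', b', hab'⟩ := Nat.isCoprime_iff_coprime.2 hcop
          apply u.isPrime.ne_top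
          rw [Ideal.eq_top_iff_one]
          have h11 : ((a' : ℤ) : 𝓞 M) * (k : 𝓞 M) + ((b' : ℤ) : 𝓞 M) * 3 = 1 := by
            exact_mod_cast congrArg (Int.cast : ℤ → 𝓞 M) hab'
          rw [← h11]
          exact u.asIdeal.add_mem (u.asIdeal.mul_mem_left _ h10) (u.asIdeal.mul_mem_left _ hu)
        have h12 := u.valuation_le_one (K := M) ((k : ℕ) : 𝓞 M)
        have h13 : ¬ u.valuation M (((k : ℕ) : 𝓞 M) : M) < 1 := by
          rw [HeightOneSpectrum.valuation_lt_one_iff_mem]
          exact h9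
        have h14 : (((k : ℕ) : 𝓞 M) : M) = (k : M) := by push_cast; rfl
        rw [h14] at h13
        have h15 : u.valuation M (k : M) ≤ 1 := natCast_le _ k
        exact le_antisymm h15 (not_lt.1 h13)
      have hfer := fermat u ha
      rw [← hNu] at hfer
      have h16 : (1 + (t ^ (Nu - 1) - 1)) ^ k - 1 = t ^ (Nw - 1) - 1 := by
        rw [add_sub_cancel, ← pow_mul, hkm]
      rw [← h16] at h1
      exact one_add_pow_val (u.valuation M) hfer hvk h1
    · exact absurd hu h

end final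

end Pool.Agent.W2helper24.TQ
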