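import Mathlib
import Pool.Agent.W2helper24.TQ.A5
import Pool.Agent.W2helper24.TQ.A7
import Pool.Agent.Q286.EQ.MW

/-!
# The group of the rational points (project TQ, helper24)
-/

set_option autoImplicit false

namespace Pool.Agent.W2helper24.TQ

open NumberField IsDedekindDomain WithZero
open Pool.Agent.Y696 (val_aut)
open scoped Classical

section sel
variable {L : Type} [Field L] [NumberField L]

/-- the cubes satisfy the local conditions -/
lemma Sel.cube (h3 : ∀ w : HeightOneSpectrum (𝓞 L), (3 : 𝓞 L) ∈ w.asIdeal →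
    w.valuation L 3 = exp (-2 : ℤ)) {a : L} (ha : a ≠ 0) : Sel (a ^ 3) := by
  refine ⟨pow_ne_zero 3 ha, fun w => ⟨a⁻¹, ?_⟩, fun w hw b hb => ?_⟩
  · rw [inv_pow, mul_inv_cancel₀ (pow_ne_zero 3 ha), map_one]
  · rw [← mul_pow, map_pow] at hb
    have hc : w.valuation L (a * b) = 1 := by
      have h0 : w.valuation L (a * b) ≠ 0 := by
        intro h
        rw [h, zero_pow (by norm_num)] at hb
        exact zero_ne_one hb
      obtain ⟨k, hk⟩ := exp_rep' h0
      rw [hk, ← exp_nsmul, ← exp_zero, exp_inj] at hb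
      have : k = 0 := by simpa using hb
      rw [hk, this, exp_zero]
    have hf := fermat w hc
    set N := Nat.card (𝓞 L ⧸ w.asIdeal) - 1
    set d := (a * b) ^ N - 1 with hd
    have e : (a ^ 3 * b ^ 3) ^ N - 1 = 3 * d + 3 * d ^ 2 + d ^ 3 := by
      have e1 : (a ^ 3 * b ^ 3) ^ N = ((a * b) ^ N) ^ 3 := by
        rw [← mul_pow, ← pow_mul, ← pow_mul, mul_comm 3 N]
      have e2 : (a * b) ^ N = 1 + d := by rw [hd]; ring
      rw [e1, e2]
      ring
    rw [e, h3 w hw]
    have hd1 : w.valuation L d ≤ 1 := hf.le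
    refine Valuation.map_add_le _ (Valuation.map_add_le _ ?_ ?_) ?_
    · rw [map_mul, h3 w hw]
      exact mul_le_of_le_one_right' hd1
    · rw [map_mul, h3 w hw, map_pow]
      exact mul_le_of_le_one_right' (pow_le_one' hd1 2)
    · rw [map_pow]
      by_cases h0 : w.valuation L d = 0
      · rw [h0, zero_pow (by norm_num)]
        exact zero_le
      · obtain ⟨k, hk⟩ := exp_rep' h0
        rw [hk, ← exp_zero, exp_lt_exp] at hf
        rw [hk, ← exp_nsmul, exp_le_exp]
        simp only [nsmul_eq_mul]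
        push_cast
        omega

/-- the products -/
lemma Sel.mul {a b : L} (ha : Sel a) (hb : Sel b) : Sel (a * b) := by
  have key : ∀ w : HeightOneSpectrum (𝓞 L), ∀ a₁ : L, w.valuation L (a * a₁ ^ 3) = 1 → a₁ ≠ 0 := by
    rintro w a₁ h rfl
    rw [zero_pow (by norm_num), mul_zero, map_zero] at h
    exact zero_ne_one h
  refine ⟨mul_ne_zero ha.ne hb.ne, fun w => ?_, fun w hw c hc => ?_⟩
  · obtain ⟨a₁, h1⟩ := ha.div w
    obtain ⟨b₁, h2⟩ := hb.div w
    refine ⟨a₁ * b₁, ?_⟩
    have e : a * b * (a₁ * b₁) ^ 3 = (a * a₁ ^ 3) * (b * b₁ ^ 3) := by ring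
    rw [e, map_mul, h1, h2, one_mul]
  · obtain ⟨a₁, h1⟩ := ha.div w
    have ha₁ := key w a₁ h1
    have e : a * b * c ^ 3 = (a * a₁ ^ 3) * (b * (c / a₁) ^ 3) := by
      rw [div_pow]
      field_simp
    have h2 : w.valuation L (b * (c / a₁) ^ 3) = 1 := by
      rw [e, map_mul, h1, one_mul] at hc
      exact hc
    have g1 := ha.loc w hw a₁ h1
    have g2 := hb.loc w hw (c / a₁) h2
    set N := Nat.card (𝓞 L ⧸ w.asIdeal) - 1
    rw [e]
    have e2 : (a * a₁ ^ 3 * (b * (c / a₁) ^ 3)) ^ N - 1 =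
        ((a * a₁ ^ 3) ^ N - 1) * (b * (c / a₁) ^ 3) ^ N + ((b * (c / a₁) ^ 3) ^ N - 1) := by
      rw [mul_pow]
      ring
    rw [e2]
    refine Valuation.map_add_le _ ?_ g2
    rw [map_mul, map_pow, h2, one_pow, mul_one]
    exact g1

/-- the conjugates -/
lemma Sel.aut {a : L} (ha : Sel a) (g : L ≃+* L) : Sel (g a) := by
  have hval : ∀ w : HeightOneSpectrum (𝓞 L), ∃ w' : HeightOneSpectrum (𝓞 L),
      (∀ x, w.valuation L (g x) = w'.valuation L x) ∧
      Nat.card (𝓞 L ⧸ w.asIdeal) = Nat.card (𝓞 L ⧸ w'.asIdeal) := by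
    intro w
    obtain ⟨w', hw'⟩ := val_aut g w
    refine ⟨w', hw', ?_⟩
    set s : 𝓞 L ≃+* 𝓞 L := RingOfIntegers.mapRingEquiv g with hs
    have hmem : ∀ x : 𝓞 L, x ∈ w'.asIdeal ↔ s x ∈ w.asIdeal := by
      intro x
      rw [← HeightOneSpectrum.valuation_lt_one_iff_mem (K := L), ← hw',
        ← HeightOneSpectrum.valuation_lt_one_iff_mem (K := L)]
      rfl
    have hmap : w.asIdeal = Ideal.map (s : 𝓞 L →+* 𝓞 L) w'.asIdeal := by
      ext x
      constructor
      · intro hx
        have h1 : s.symm x ∈ w'.asIdeal := by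
          rw [hmem, s.apply_symm_apply]
          exact hx
        have h2 := Ideal.mem_map_of_mem (s : 𝓞 L →+* 𝓞 L) h1
        have h3 : (s : 𝓞 L →+* 𝓞 L) (s.symm x) = x := s.apply_symm_apply x
        rwa [h3] at h2
      · intro hx
        have h1 : w'.asIdeal ≤ w.asIdeal.comap (s : 𝓞 L →+* 𝓞 L) := fun y hy => (hmem y).1 hy
        exact Ideal.map_le_iff_le_comap.2 h1 hx
    exact Nat.card_congr (Ideal.quotientEquiv _ _ s hmap).toEquiv.symm
  have hg0 : g a ≠ 0 := (map_ne_zero g).2 ha.ne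
  refine ⟨hg0, fun w => ?_, fun w hw c hc => ?_⟩
  · obtain ⟨w', hw', -⟩ := hval w
    obtain ⟨b, hb⟩ := ha.div w'
    exact ⟨g b, by rw [← map_pow, ← map_mul, hw', hb]⟩
  · obtain ⟨w', hw', hN⟩ := hval w
    obtain ⟨c', rfl⟩ := g.surjective c
    rw [← map_pow, ← map_mul, hw'] at hc
    have hw3 : (3 : 𝓞 L) ∈ w'.asIdeal := by
      have h1 := (HeightOneSpectrum.valuation_lt_one_iff_mem (K := L) w 3).2 hw
      rw [← HeightOneSpectrum.valuation_lt_one_iff_mem (K := L), ← hw']
      have e : g ((3 : 𝓞 L) : L) = ((3 : 𝓞 L) : L) := by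
        have : ((3 : 𝓞 L) : L) = 3 := by norm_cast
        rw [this, map_ofNat]
      rw [e]
      exact h1
    have h2 := ha.loc w' hw3 c' hc
    rw [hN, ← map_pow, ← map_mul, ← map_pow, ← map_one g, ← map_sub, hw']
    have h3 : w.valuation L 3 = w'.valuation L 3 := by
      rw [← hw', map_ofNat g 3]
    rw [h3]
    exact h2

end sel

lemma fin_three {A : Type} [AddCommGroup A] (hfg : AddGroup.FG A) (h : ∀ P : A, ∃ Q : A, P = 3 • Q) :
    Finite A ∧ ¬ 3 ∣ Nat.card A := by
  have hfin : Module.Finite ℤ A := Module.Finite.iff_addGroup_fg.2 hfg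
  have hle : (⊤ : Submodule ℤ A) ≤ (Ideal.span {(3 : ℤ)}) • (⊤ : Submodule ℤ A) := by
    intro P _
    obtain ⟨Q, rfl⟩ := h P
    have : (3 : ℕ) • Q = (3 : ℤ) • Q := by
      rw [← natCast_zsmul]
      norm_num
    rw [this]
    exact Submodule.smul_mem_smul (Ideal.mem_span_singleton_self 3) trivial
  obtain ⟨r, hr1, hr⟩ := Submodule.exists_sub_one_mem_and_smul_eq_zero_of_fg_of_le_smul
    (Ideal.span {(3 : ℤ)}) (⊤ : Submodule ℤ A) Module.Finite.fg_top hle
  have hr0 : r ≠ 0 := by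
    rintro rfl
    rw [Ideal.mem_span_singleton] at hr1
    omega
  have hA : Finite A := by
    have htor : ∀ a : A, IsOfFinAddOrder a := by
      intro a
      rw [isOfFinAddOrder_iff_nsmul_eq_zero]
      refine ⟨r.natAbs, Int.natAbs_pos.2 hr0, ?_⟩
      have h1 := hr a trivial
      rcases Int.natAbs_eq r with h2 | h2
      · rw [h2, natCast_zsmul] at h1
        exact h1
      · rw [h2, neg_smul, natCast_zsmul, neg_eq_zero] at h1
        exact h1
    exact AddCommGroup.finite_of_fg_torsion A htor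
  refine ⟨hA, fun h3 => ?_⟩
  have : Fact (Nat.Prime 3) := ⟨Nat.prime_three⟩
  obtain ⟨x, hx⟩ := exists_prime_addOrderOf_dvd_card' 3 h3
  have hsurj : Function.Surjective (fun Q : A => 3 • Q) := fun P => by
    obtain ⟨Q, hQ⟩ := h P
    exact ⟨Q, hQ.symm⟩
  have hinj := Finite.injective_iff_surjective.2 hsurj
  have h4 : x = 0 := hinj (by
    simp only [smul_zero]
    rw [← hx]
    exact addOrderOf_nsmul_eq_zero x)
  rw [h4, addOrderOf_zero] at hx
  norm_num at hx

/-- in the tower the numbers `y - i` are cubes -/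
theorem cube_of_pt (h2 : P_A2) (h4 : P_A4) {K F M L : Type} [Field K] [NumberField K]
    [IsCyclotomicExtension {3} ℚ K] [Field F] [NumberField F] [Algebra K F] [IsGalois K F]
    [Field M] [NumberField M] [IsCyclotomicExtension {12} ℚ M]
    [Algebra K M] [Field L] [NumberField L] [Algebra K L] [Algebra F L] [Algebra M L]
    [IsScalarTower K F L] [IsScalarTower K M L] [IsGalois M L] {i : M} {σM : M ≃ₐ[K] M}
    {σ : L ≃ₐ[F] L} {n : ℕ} (hn : Module.finrank K F = 3 ^ n) (hR : Ram K F)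
    (T : Tow K F M L i σM σ n) {θ : K} (hθ : θ ^ 2 = -3) :
    ∀ x y : F, y ^ 2 = x ^ 3 - 1 → ∃ w : L, w ^ 3 = algebraMap F L y - algebraMap M L i := by
  intro x y hxy
  obtain ⟨r1, r2, r3⟩ := a7 K F n hn hR M L i σM σ T
  have hi : (algebraMap M L i) ^ 2 = -1 := by rw [← map_pow, T.hi, map_neg, map_one]
  have hθL : (algebraMap K L θ) ^ 2 = -3 := by rw [← map_pow, hθ, map_neg, map_ofNat]
  have hsel := h2 F L (algebraMap M L i) (algebraMap K L θ) hi hθL r1 (r2 _ hθL) T.not x y hxy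
  have hv3 : ∀ w : HeightOneSpectrum (𝓞 L), (3 : 𝓞 L) ∈ w.asIdeal →
      w.valuation L 3 = exp (-2 : ℤ) := fun w hw => val_three_L hR T hw
  have hfin : FiniteDimensional M L := Module.Finite.of_restrictScalars_finite ℚ M L
  obtain ⟨a, ha⟩ := a5 M L n T.fr (σ : L ≃+* L) T.sq T.comm (by
      intro ζ hζ
      by_cases h1 : ζ = 1
      · rw [h1, map_one]
      · have h3 : ζ ^ 2 + ζ + 1 = 0 := by
          have : (ζ - 1) * (ζ ^ 2 + ζ + 1) = 0 := by linear_combination hζ
          exact (mul_eq_zero.1 this).resolve_left (sub_ne_zero.2 h1)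
        have h4 : (2 * ζ + 1 - algebraMap K L θ) * (2 * ζ + 1 + algebraMap K L θ) = 0 := by
          linear_combination 4 * h3 - hθL
        have hσθ : σ (algebraMap K L θ) = algebraMap K L θ := by
          rw [IsScalarTower.algebraMap_apply K F L, AlgEquiv.commutes]
        have h20 : (2 : L) ≠ 0 := two_ne_zero
        have h5 : (2 : L) * σ ζ = 2 * ζ := by
          have h6 : σ (2 * ζ + 1) = 2 * σ ζ + 1 := by rw [map_add, map_mul, map_ofNat, map_one]
          rcases mul_eq_zero.1 h4 with h | h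
          · have h7 : 2 * ζ + 1 = algebraMap K L θ := sub_eq_zero.1 h
            rw [h7, hσθ] at h6
            linear_combination -h6 - h7
          · have h7 : 2 * ζ + 1 = -algebraMap K L θ := eq_neg_of_add_eq_zero_left h
            rw [h7, map_neg, hσθ] at h6
            linear_combination -h6 - h7
        exact mul_left_cancel₀ h20 h5)
    (fun z => Sel z) (fun a h => h.ne) (fun a h => Sel.cube hv3 h) (fun a b ha hb => ha.mul hb)
    (fun g a h => h.aut (g : L ≃+* L)) (fun a h => h.aut (σ : L ≃+* L))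
    (by
      intro m hm hσ
      have h5 : σM m = m⁻¹ := by
        apply (algebraMap M L).injective
        rw [← T.res, map_inv₀]
        exact hσ
      obtain ⟨a, ha⟩ := h4 M m (r3 m hm h5)
      exact ⟨algebraMap M L a, by rw [ha, map_pow]⟩)
    (algebraMap F L y - algebraMap M L i) hsel
    ⟨algebraMap F L x, by
      have h6 : (σ : L ≃+* L) (algebraMap F L y - algebraMap M L i) =
          algebraMap F L y + algebraMap M L i := by
        change σ (algebraMap F L y - algebraMap M L i) = _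
        rw [map_sub, AlgEquiv.commutes, T.sL, sub_neg_eq_add]
      rw [h6]
      have h7 := congrArg (algebraMap F L) hxy
      rw [map_pow, map_sub, map_pow, map_one] at h7
      linear_combination h7 - hi⟩
  exact ⟨a, ha.symm⟩

theorem a10 (h1 : P_A1) (h2 : P_A2) (h4 : P_A4) (h6 : P_A6) : P_A10 := by
  intro K F _ _ _ _ _ _ _ n hn hR
  obtain ⟨M, _, _, _, L, _, _, _, _, _, _, _, i, σM, σ, hcyc, hgal, T⟩ := h6 K F n hn
  obtain ⟨ζ, hζ⟩ := IsCyclotomicExtension.exists_isPrimitiveRoot ℚ K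
    (Set.mem_singleton 3) (by norm_num)
  have hζ2 : ζ ^ 2 + ζ + 1 = 0 := by
    have h3 : ζ ^ 3 = 1 := hζ.pow_eq_one
    have h4 : ζ ≠ 1 := hζ.ne_one (by norm_num)
    have h5 : (ζ - 1) * (ζ ^ 2 + ζ + 1) = 0 := by linear_combination h3
    exact (mul_eq_zero.1 h5).resolve_left (sub_ne_zero.2 h4)
  have hθ : (2 * ζ + 1) ^ 2 = -3 := by linear_combination 4 * hζ2
  refine fin_three ?_ ?_
  · refine Pool.Agent.Q286.EQ.mordell_weil F (Em F) ?_
    simp [Em, WeierstrassCurve.Δ, WeierstrassCurve.b₂, WeierstrassCurve.b₄, WeierstrassCurve.b₆,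
      WeierstrassCurve.b₈]
  · refine h1 F L σ (algebraMap M L i) (algebraMap K F (2 * ζ + 1)) ?_ T.sL T.fixF ?_
      (cube_of_pt h2 h4 hn hR T hθ)
    · rw [← map_pow, T.hi, map_neg, map_one]
    · rw [← map_pow, hθ, map_neg, map_ofNat]

end Pool.Agent.W2helper24.TQ
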