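import Mathlib

/-!
# Project TQ: a number that is a unit at all the valuations of `ℂ` above three is a root of a polynomial
with integral coefficients whose leading and constant coefficients are prime to three
-/

set_option autoImplicit false

namespace Pool.Agent.W2helper24.TQ

open Polynomial

lemma exists_const {y : ℂ} (h : ∀ (Γ : Type) [LinearOrderedCommGroupWithZero Γ] (v : Valuation ℂ Γ),
    v 3 < 1 → ¬ v y < 1) : ∃ Q : ℤ[X], aeval y Q = 0 ∧ ¬ (3 : ℤ) ∣ Q.coeff 0 := by
  set φ : ℤ[X] →+* ℂ := (aeval y : ℤ[X] →ₐ[ℤ] ℂ).toRingHom with hφ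
  set J : Ideal ℤ[X] := Ideal.span {C 3, X} with hJ
  have hJ0 : ∀ q ∈ J, (3 : ℤ) ∣ q.coeff 0 := by
    intro q hq
    rw [hJ, Ideal.mem_span_pair] at hq
    obtain ⟨a, b, rfl⟩ := hq
    simp
  by_cases hI : J.map φ.rangeRestrict = ⊤
  · have h1 : (1 : φ.range) ∈ J.map φ.rangeRestrict := hI ▸ Submodule.mem_top
    rw [Ideal.mem_map_iff_of_surjective _ φ.rangeRestrict_surjective] at h1
    obtain ⟨q, hq, h2⟩ := h1
    refine ⟨q - 1, ?_, ?_⟩
    · have h3 : φ q = 1 := congrArg Subtype.val h2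
      rw [map_sub, map_one]
      exact sub_eq_zero.2 h3
    · have h3 := hJ0 q hq
      rw [coeff_sub, coeff_one_zero]
      omega
  · exfalso
    obtain ⟨V, hV1, hV2⟩ := Ideal.image_subset_nonunits_valuationSubring _ hI
    have h3 : (3 : ℂ) ∈ V.nonunits := by
      refine hV2 ⟨φ.rangeRestrict (C 3), Ideal.mem_map_of_mem _ (Ideal.subset_span (by simp)), ?_⟩
      show φ (C 3) = 3
      rw [hφ]
      exact (aeval_C y (3 : ℤ)).trans (by norm_num)
    have h4 : y ∈ V.nonunits := by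
      refine hV2 ⟨φ.rangeRestrict X, Ideal.mem_map_of_mem _ (Ideal.subset_span (by simp)), ?_⟩
      show φ X = y
      rw [hφ]
      exact aeval_X y
    rw [ValuationSubring.mem_nonunits_iff] at h3 h4
    exact h V.ValueGroup V.valuation h3 h4

/-- a unit at all the valuations above three -/
theorem exists_poly {x : ℂ} (h : ∀ (Γ : Type) [LinearOrderedCommGroupWithZero Γ]
    (v : Valuation ℂ Γ), v 3 < 1 → v x = 1) :
    ∃ p : ℤ[X], aeval x p = 0 ∧ ¬ (3 : ℤ) ∣ p.leadingCoeff ∧ ¬ (3 : ℤ) ∣ p.coeff 0 := by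
  obtain ⟨Q₁, a1, a2⟩ := exists_const (y := x) fun Γ _ v hv => by
    rw [h Γ v hv]
    exact lt_irrefl _
  obtain ⟨Q₂, b1, b2⟩ := exists_const (y := x⁻¹) fun Γ _ v hv => by
    rw [map_inv₀, h Γ v hv, inv_one]
    exact lt_irrefl _
  have b3 : Q₂.coeff 0 ≠ 0 := fun h0 => b2 (h0 ▸ dvd_zero _)
  have hx0 : x⁻¹ ≠ 0 := by
    intro h0
    rw [h0, aeval_def, eval₂_at_zero, algebraMap_int_eq, eq_intCast, Int.cast_eq_zero] at b1
    exact b3 b1
  have c1 : aeval x Q₂.reverse = 0 := by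
    let := invertibleOfNonzero hx0
    have h1 := eval₂_reverse_eq_zero_iff (algebraMap ℤ ℂ) x⁻¹ Q₂
    rw [invOf_eq_inv, inv_inv] at h1
    rw [aeval_def]
    rw [aeval_def] at b1
    exact h1.2 b1
  have c2 : Q₂.reverse.leadingCoeff = Q₂.coeff 0 := by
    rw [reverse_leadingCoeff, trailingCoeff, natTrailingDegree_eq_zero.2 (Or.inr b3)]
  set P := Q₂.reverse with hP
  have hP0 : P ≠ 0 := by
    intro h0
    rw [h0, leadingCoeff_zero] at c2
    exact b3 c2.symm
  have d1 : Q₁.degree < (X ^ (Q₁.natDegree + 1) * P).degree := by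
    rw [degree_mul, degree_X_pow, degree_eq_natDegree hP0]
    refine lt_of_le_of_lt degree_le_natDegree ?_
    norm_cast
    omega
  refine ⟨X ^ (Q₁.natDegree + 1) * P + Q₁, ?_, ?_, ?_⟩
  · rw [map_add, map_mul, c1, mul_zero, zero_add, a1]
  · rw [leadingCoeff_add_of_degree_lt' d1, leadingCoeff_mul, leadingCoeff_X_pow, one_mul, c2]
    exact b2
  · rw [coeff_add, mul_coeff_zero, coeff_X_pow, if_neg (by omega), zero_mul, zero_add]
    exact a2

/-- the converse -/
theorem val_of_poly {x : ℂ} {p : ℤ[X]} (h0 : aeval x p = 0) (h1 : ¬ (3 : ℤ) ∣ p.leadingCoeff)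
    (h2 : ¬ (3 : ℤ) ∣ p.coeff 0) (Γ : Type) [LinearOrderedCommGroupWithZero Γ]
    (v : Valuation ℂ Γ) (hv : v 3 < 1) : v x = 1 := by
  have hn : ∀ n : ℤ, v (n : ℂ) ≤ 1 := by
    intro n
    exact (Valuation.mem_integer_iff v _).1 (intCast_mem v.integer n)
  have hu : ∀ n : ℤ, ¬ (3 : ℤ) ∣ n → v (n : ℂ) = 1 := by
    intro n h3
    have hc : IsCoprime (3 : ℤ) n := (Int.isCoprime_iff_gcd_eq_one.2 (by
      have := (Int.prime_three.coprime_iff_not_dvd.2 h3)
      exact Int.isCoprime_iff_gcd_eq_one.1 this))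
    obtain ⟨a, b, hab⟩ := hc
    refine le_antisymm (hn n) ?_
    by_contra hlt
    push Not at hlt
    have h4 : v ((a : ℂ) * 3 + b * n) = 1 := by
      have : ((a : ℂ) * 3 + b * n) = 1 := by exact_mod_cast hab
      rw [this, map_one]
    have h5 : v ((a : ℂ) * 3 + b * n) < 1 := by
      refine lt_of_le_of_lt (v.map_add _ _) (max_lt ?_ ?_)
      · rw [map_mul]
        exact lt_of_le_of_lt (mul_le_of_le_one_left' (hn a)) hv
      · rw [map_mul]
        exact lt_of_le_of_lt (mul_le_of_le_one_left' (hn b)) hlt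
    rw [h4] at h5
    exact lt_irrefl _ h5
  have hsum : ∑ i ∈ Finset.range (p.natDegree + 1), (p.coeff i : ℂ) * x ^ i = 0 := by
    rw [aeval_eq_sum_range] at h0
    simpa [zsmul_eq_mul] using h0
  rcases lt_trichotomy (v x) 1 with hx | hx | hx
  · exfalso
    rw [Finset.sum_range_succ'] at hsum
    have h3 : v (p.coeff 0 : ℂ) < 1 := by
      have h4 : (p.coeff 0 : ℂ) = -∑ i ∈ Finset.range p.natDegree, (p.coeff (i + 1) : ℂ) * x ^ (i + 1) := by
        have := hsum
        simp only [pow_zero, mul_one] at this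
        linear_combination this
      rw [h4, v.map_neg]
      refine v.map_sum_lt one_ne_zero fun i _ => ?_
      rw [map_mul, map_pow]
      exact lt_of_le_of_lt (mul_le_of_le_one_left' (hn _)) (pow_lt_one₀ zero_le hx (Nat.succ_ne_zero _))
    rw [hu _ h2] at h3
    exact lt_irrefl _ h3
  · exact hx
  · exfalso
    rw [Finset.sum_range_succ] at hsum
    have hx0 : v x ≠ 0 := (lt_trans zero_lt_one hx).ne'
    have h4 : (p.coeff p.natDegree : ℂ) * x ^ p.natDegree =
        -∑ i ∈ Finset.range p.natDegree, (p.coeff i : ℂ) * x ^ i := by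
      linear_combination hsum
    have h5 : v (-∑ i ∈ Finset.range p.natDegree, (p.coeff i : ℂ) * x ^ i) < v x ^ p.natDegree := by
      rw [v.map_neg]
      refine v.map_sum_lt (pow_ne_zero _ hx0) fun i hi => ?_
      rw [map_mul, map_pow]
      exact lt_of_le_of_lt (mul_le_of_le_one_left' (hn _))
        (pow_lt_pow_right₀ hx (Finset.mem_range.1 hi))
    rw [← h4, map_mul, map_pow, show p.coeff p.natDegree = p.leadingCoeff from rfl, hu _ h1,
      one_mul] at h5
    exact lt_irrefl _ h5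

end Pool.Agent.W2helper24.TQ
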