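import Mathlib
import Pool.Agent.W2helper24.TQ.Stm
import Pool.Agent.Y696.Bld
import Pool.Agent.Y696.Cov

/-!
# The analytic theorem for a number field (project TQ, helper24)
-/

set_option autoImplicit false

namespace Pool.Agent.W2helper24.TQ

open NumberField IsDedekindDomain Complex Filter Topology
open Pool.Agent.Y696 Pool.Agent.W192.HK Pool.Agent.TH936.CM Pool.Agent.TH936.PU
open scoped PeriodPair

/-- every lattice with these invariants is a multiple of the Eisenstein integers -/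
lemma curM_of (h4 : P_B4) {L : PeriodPair} (h2 : L.g₂ = 0) (h3 : L.g₃ = 4) : ∃ Ω, CurM L Ω := by
  obtain ⟨L₀, Ω, hC⟩ := h4.1
  have h := Pool.Agent.Y577.LU.lat_unique L L₀ (h2.trans hC.g2.symm) (h3.trans hC.g3.symm)
  refine ⟨Ω, ⟨hC.lat.ne, fun z => ?_⟩, h2, h3⟩
  rw [h]
  exact hC.lat.mem z

section val
variable {Γ : Type} [LinearOrderedCommGroupWithZero Γ] {v : Valuation ℂ Γ}

lemma v_int_le (k : ℤ) : v (k : ℂ) ≤ 1 := by
  have h : ∀ n : ℕ, v (n : ℂ) ≤ 1 := by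
    intro n
    induction n with
    | zero => simp
    | succ n ih =>
      push_cast
      exact Valuation.map_add_le _ ih (by rw [map_one])
  rcases Int.natAbs_eq k with h1 | h1
  · rw [h1, Int.cast_natCast]
    exact h _
  · rw [h1, Int.cast_neg, Int.cast_natCast, Valuation.map_neg]
    exact h _

lemma v_nat_three (hv : v 3 < 1) {d : ℕ} (hd : ¬ 3 ∣ d) : v (d : ℂ) = 1 := by
  have hcop : Nat.Coprime 3 d := (Nat.Prime.coprime_iff_not_dvd Nat.prime_three).2 hd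
  obtain ⟨a, b, hab⟩ := Nat.isCoprime_iff_coprime.2 hcop
  have h1 : ((a : ℤ) : ℂ) * 3 + ((b : ℤ) : ℂ) * (d : ℂ) = 1 := by
    have := congrArg (fun z : ℤ => (z : ℂ)) hab
    push_cast at this
    exact this
  have h2 : v (d : ℂ) ≤ 1 := by
    have := v_int_le (v := v) (d : ℤ)
    rwa [Int.cast_natCast] at this
  by_contra hne
  have h3 : v (d : ℂ) < 1 := lt_of_le_of_ne h2 hne
  have h4 : v (((a : ℤ) : ℂ) * 3) < 1 := by
    rw [map_mul]
    exact mul_lt_one_of_nonneg_of_lt_one_right (v_int_le a) zero_le hv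
  have h5 : v (((b : ℤ) : ℂ) * (d : ℂ)) < 1 := by
    rw [map_mul]
    exact mul_lt_one_of_nonneg_of_lt_one_right (v_int_le b) zero_le h3
  have h6 := Valuation.map_add_lt v h4 h5
  rw [h1, map_one] at h6
  exact lt_irrefl _ h6

lemma v_sqrt_nat {a : ℕ} (h : v (a : ℂ) = 1) : v ((Real.sqrt (a : ℝ) : ℝ) : ℂ) = 1 := by
  have h1 : (((Real.sqrt (a : ℝ) : ℝ) : ℂ)) ^ 2 = (a : ℂ) := by
    rw [← Complex.ofReal_pow, Real.sq_sqrt (Nat.cast_nonneg a)]
    push_cast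
    rfl
  have h2 : v (((Real.sqrt (a : ℝ) : ℝ) : ℂ)) ^ 2 = 1 := by rw [← map_pow, h1, h]
  exact (pow_eq_one_iff_of_nonneg zero_le two_ne_zero).1 h2

end val

section dat
variable {K F : Type} [Field K] [NumberField K] [IsCyclotomicExtension {3} ℚ K] [Field F]
  [NumberField F] [Algebra K F]

theorem mkDatM [IsGalois K F] {n : ℕ} (hn : Module.finrank K F = 3 ^ n) {c : 𝓞 K}
    {art : (𝓞 K ⧸ Ideal.span {c})ˣ →* Gal(F/K)} (h : Art c art) (e : 𝓞 K ≃+* eis)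
    (hc0 : c ≠ 0) (hc2 : IsCoprime c 2) (hc3 : IsCoprime c 3)
    (hc : ∀ v₀ : HeightOneSpectrum (𝓞 K), c ∈ v₀.asIdeal → ∀ x : 𝓞 K, x ^ 2 + 1 ∉ v₀.asIdeal) :
    letI := commG h
    DatM (iF F e) Gal(F/K) (e c) (art.comp (Units.map (qe e c : _ →* _))) := by
  let := commG h
  have hmap : ∀ k : ℕ, IsCoprime c (k : 𝓞 K) → IsCoprime (e c) (k : eis) := by
    intro k hk
    have := hk.map (e : 𝓞 K →+* eis)
    rwa [map_natCast] at this
  refine ⟨?_, ?_, ?_, ?_, ?_, ?_, ?_, ?_, ?_, ?_⟩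
  · exact (map_ne_zero_iff _ e.injective).2 hc0
  · exact_mod_cast hmap 2 (by exact_mod_cast hc2)
  · exact_mod_cast hmap 3 (by exact_mod_cast hc3)
  · intro P hP x hx
    refine hc (trP e P) hP (e.symm x) ?_
    change e (e.symm x ^ 2 + 1) ∈ P.asIdeal
    rw [map_add, map_pow, e.apply_symm_apply, map_one]
    exact hx
  · exact ⟨n, by rw [← hn]; exact IsGalois.card_aut_eq_finrank K F⟩
  · intro b hb
    obtain ⟨a, ha⟩ := Algebra.IsInvariant.isInvariant (A := 𝓞 K) (G := Gal(F/K)) b hb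
    exact ⟨e a, by rw [iF_apply, e.symm_apply_apply, ha]⟩
  · intro g a
    rw [iF_apply]
    exact smul_algebraMap (α := Gal(F/K)) g (e.symm a)
  · refine h.surj.comp ?_
    exact (Units.mapEquiv (qe e c).toMulEquiv).surjective
  · intro v hv g hg
    rw [iF_apply, e.symm_apply_apply] at hv
    exact unr_g v (h.unr v hv) hg
  · intro π hπ u hu v hv x
    rw [iF_apply] at hv
    have h1 : Prime (e.symm π) := (MulEquiv.prime_iff (e.symm : eis ≃* 𝓞 K)).2 hπ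
    have h2 : Nat.card (𝓞 K ⧸ Ideal.span {e.symm π}) = Nat.card (eis ⧸ (sp π : Ideal eis)) := by
      have := qe e (e.symm π)
      rw [e.apply_symm_apply] at this
      exact (Nat.card_congr this.toEquiv).symm
    rw [← h2]
    refine h.frob (e.symm π) h1 (Units.map (qe e c : _ →* _) u) ?_ v hv x
    rw [Units.coe_map]
    change qe e c (u : _) = _
    rw [hu, qe_mk]

end dat

theorem c2 (h1 : P_C1) (h3 : P_C3) (h4 : P_B4) : P_C2 := by
  intro K F _ _ _ _ _ _ _ n hn c art hart hc0 hc6 hgood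
  have h : Art c art := ⟨hart.surj, hart.unr, hart.frob⟩
  have h6 : (6 : 𝓞 K) = 2 * 3 := by norm_num
  have hc2 : IsCoprime c 2 := by
    rw [h6] at hc6
    exact hc6.of_mul_right_left
  have hc3 : IsCoprime c 3 := by
    rw [h6] at hc6
    exact hc6.of_mul_right_right
  let := commG h
  obtain ⟨ζ, hζ⟩ := IsCyclotomicExtension.exists_isPrimitiveRoot ℚ K
    (Set.mem_singleton 3) (by norm_num)
  obtain ⟨τ, hτ⟩ := exists_emb hζ
  obtain ⟨Lf, g1, g2, g3, g4, g5⟩ := h1 F (iF F (isoE hζ τ hτ)) Gal(F/K) _ _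
    (mkDatM hn h (isoE hζ τ hτ) hc0 hc2 hc3 hgood)
  refine ⟨Lf, g1, g2, g3, g4, fun L hL2 hL3 Γ _ v hv => ?_⟩
  obtain ⟨Ω, hC⟩ := curM_of h4 hL2 hL3
  have h7 := g5 L Ω hC Γ v hv
  have h8 : Nat.card Gal(F/K) = 3 ^ n := by rw [← hn]; exact IsGalois.card_aut_eq_finrank K F
  rw [h8] at h7
  have hun : ∀ w : HeightOneSpectrum (𝓞 F), (3 : 𝓞 F) ∈ w.asIdeal →
      Algebra.IsUnramifiedAt (𝓞 K) w.asIdeal := by
    intro w hw
    refine h.unr w fun hcw => ?_
    obtain ⟨a, b, hab⟩ := hc3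
    apply w.isPrime.ne_top
    rw [Ideal.eq_top_iff_one]
    have h9 := congrArg (algebraMap (𝓞 K) (𝓞 F)) hab
    rw [map_add, map_mul, map_mul, map_one, map_ofNat] at h9
    rw [← h9]
    exact w.asIdeal.add_mem (w.asIdeal.mul_mem_left _ hcw) (w.asIdeal.mul_mem_left _ hw)
  obtain ⟨d, hd, hdisc⟩ := h3 K F hun
  rw [hn] at hdisc
  have h10 : (Real.sqrt |(discr F : ℝ)| : ℝ) = Real.sqrt 3 ^ 3 ^ n * Real.sqrt d := by
    have h11 : |(discr F : ℝ)| = ((discr F).natAbs : ℝ) := by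
      rw [Nat.cast_natAbs]
      push_cast
      rfl
    rw [h11, hdisc]
    push_cast
    have h12 : Real.sqrt ((3 : ℝ) ^ 3 ^ n) = Real.sqrt 3 ^ 3 ^ n := by
      rw [Real.sqrt_eq_iff_mul_self_eq (by positivity) (by positivity), ← mul_pow,
        Real.mul_self_sqrt (by norm_num)]
    rw [Real.sqrt_mul (by positivity), h12]
  rw [area hC.lat, h10]
  have h12 : |((3 : ℤ) : ℝ)| = 3 := by norm_num
  rw [h12]
  have h3' : ((Real.sqrt 3 : ℝ) : ℂ) ≠ 0 := by
    rw [Complex.ofReal_ne_zero]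
    positivity
  have h13 : Lf 1 * ((Real.sqrt 3 ^ 3 ^ n * Real.sqrt d : ℝ) : ℂ) /
      (((Real.sqrt 3 : ℝ) : ℂ) * (Ω * (starRingEnd ℂ) Ω)) ^ 3 ^ n =
      Lf 1 / (Ω * (starRingEnd ℂ) Ω) ^ 3 ^ n * ((Real.sqrt d : ℝ) : ℂ) := by
    push_cast
    rw [mul_pow]
    have h14 : ((Real.sqrt 3 : ℝ) : ℂ) ^ 3 ^ n ≠ 0 := pow_ne_zero _ h3'
    field_simp
  rw [h13, map_mul, h7, one_mul]
  exact v_sqrt_nat (v_nat_three hv hd)

end Pool.Agent.W2helper24.TQ
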