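import Mathlib
import Pool.Agent.W2helper19.TQ.B1b
import Pool.Agent.W2helper10.TQ.B2
import Pool.Agent.W2helper92.TQ.B3
import Pool.Agent.W2helper17.TQ.B4
import Pool.Agent.W2helper66.TQ.B5
import Pool.Agent.W2helper73.TQ.C1
import Pool.Agent.W2helper14.TQ.C3
import Pool.Agent.W2helper54.TQ.A1
import Pool.Agent.W2helper14.TQ.A2
import Pool.Agent.W2helper95.TQ.A4
import Pool.Agent.W2helper15.TQ.A6
import Pool.Agent.W2helper93.TQ.A9
import Pool.Agent.W2helper24.TQ.A10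
import Pool.Agent.W2helper24.TQ.C2

/-!
# Project TQ: the pieces, unconditionally
-/

set_option autoImplicit false

namespace Pool.Agent.W2helper24.TQ

theorem B1 : P_B1 := Pool.Agent.W2helper19.TQ.piece
theorem B2 : P_B2 := Pool.Agent.W2helper10.TQ.piece
theorem B3 : P_B3 := Pool.Agent.W2helper92.TQB3.piece B1
theorem B4 : P_B4 := Pool.Agent.W2helper17.TQ.B4.piece
theorem B5 : P_B5 := Pool.Agent.W2helper66.TQ.piece B1 B4
theorem C1 : P_C1 := Pool.Agent.W2helper73.TQ.piece B1 B2 B3 B5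
theorem C3 : P_C3 := Pool.Agent.W2helper14.TQ.pieceC3
theorem C2 : P_C2 := c2 C1 C3 B4
theorem A1 : P_A1 := Pool.Agent.W2helper54.TQ.A1.piece
theorem A2 : P_A2 := Pool.Agent.W2helper14.TQ.piece
theorem A4 : P_A4 := Pool.Agent.W2helper95.TQ.piece
theorem A6 : P_A6 := Pool.Agent.W2helper15.TQ.piece
theorem A9 : P_A9 := Pool.Agent.W2helper93.TQ.piece
theorem A10 : P_A10 := a10 A1 A2 A4 A6

end Pool.Agent.W2helper24.TQ
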