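import Mathlib
import Pool.Agent.W2helper24.TQ.Stm

/-!
# Project TQ (owner helper24), second part: fields without cube roots of unity, the curves
# `y² = x³ - D²` over `ℚ`, the twists by the representations of `Gal(F/ℚ)`
-/

set_option autoImplicit false

namespace Pool.Agent.W2helper24.TQ

open NumberField IsDedekindDomain Complex Filter Topology WeierstrassCurve TensorProduct
open Pool.Agent.Y696 Pool.Agent.W192.HK Pool.Agent.TH936.CM Pool.Agent.TH936.PU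
open Pool.Agent.W192.CM (nu)
open scoped PeriodPair Classical

/-! ## Examples of the fields -/

/-- the primes of `K` that divide `c` are good -/
def GoodC {K : Type} [Field K] [NumberField K] (c : 𝓞 K) : Prop :=
  c ≠ 0 ∧ IsCoprime c 6 ∧ ∀ v₀ : HeightOneSpectrum (𝓞 K), c ∈ v₀.asIdeal →
    ∀ x : 𝓞 K, x ^ 2 + 1 ∉ v₀.asIdeal

/-- the Artin map is compatible with the local theory: the inertia groups at the primes above `v₀` are
the image of the classes that are `1` modulo the part `c₂` of `c` that is prime to `v₀` -/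
def IsLoc {K F : Type} [Field K] [NumberField K] [Field F] [NumberField F] [Algebra K F]
    (c : 𝓞 K) (art : (𝓞 K ⧸ Ideal.span {c})ˣ →* Gal(F/K)) : Prop :=
  ∀ (v₀ : HeightOneSpectrum (𝓞 K)) (c₁ c₂ : 𝓞 K), c = c₁ * c₂ →
    (∀ v : HeightOneSpectrum (𝓞 K), c₁ ∈ v.asIdeal → v = v₀) → c₂ ∉ v₀.asIdeal →
    ∀ w : HeightOneSpectrum (𝓞 F), w.asIdeal.LiesOver v₀.asIdeal → ∀ g : Gal(F/K),
      (∀ x : 𝓞 F, g • x - x ∈ w.asIdeal) ↔
        ∃ (u : (𝓞 K ⧸ Ideal.span {c})ˣ) (α : 𝓞 K),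
          (u : 𝓞 K ⧸ Ideal.span {c}) = Ideal.Quotient.mk _ α ∧ c₂ ∣ α - 1 ∧ art u = g

/-- PIECE E1: subfields of `K(ζ_m)` -/
def P_E1 : Prop := ∀ (K F L : Type) [Field K] [NumberField K] [IsCyclotomicExtension {3} ℚ K]
  [Field F] [NumberField F] [Algebra K F] [IsGalois K F] [Field L] [NumberField L] [Algebra F L]
  [Algebra K L] [IsScalarTower K F L] (m : ℕ) [NeZero m] [IsCyclotomicExtension {m} K L],
  (∀ q : ℕ, q.Prime → q ∣ m → q % 12 = 7) →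
  GoodC (m : 𝓞 K) ∧ ∃ art : (𝓞 K ⧸ Ideal.span {(m : 𝓞 K)})ˣ →* Gal(F/K),
    IsArtin (m : 𝓞 K) art ∧ IsLoc (m : 𝓞 K) art

/-- the class of the numbers `D` -/
def DCls (D : ℕ) : Prop := 0 < D ∧ (∀ p : ℕ, p.Prime → p ∣ D → p % 12 = 7 ∧ ¬ p ^ 3 ∣ D) ∧
  (D % 9 = 1 ∨ D % 9 = 8)

/-- `F` is generated over `K` by cube roots of numbers of the class -/
def GenC (K F : Type) [Field K] [NumberField K] [Field F] [NumberField F] [Algebra K F] : Prop :=
  ∃ S : Set F, IntermediateField.adjoin K S = ⊤ ∧ ∀ x ∈ S, ∃ D : ℕ, DCls D ∧ x ^ 3 = (D : F)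

/-- PIECE E2: fields generated by cube roots, ramification -/
def P_E2 : Prop := ∀ (K F : Type) [Field K] [NumberField K] [IsCyclotomicExtension {3} ℚ K]
  [Field F] [NumberField F] [Algebra K F], GenC K F →
  IsGalois K F ∧ (∃ n, Module.finrank K F = 3 ^ n) ∧ Ram K F

/-- PIECE E3: fields generated by cube roots, the Artin map -/
def P_E3 : Prop := ∀ (K F : Type) [Field K] [NumberField K] [IsCyclotomicExtension {3} ℚ K]
  [Field F] [NumberField F] [Algebra K F] [IsGalois K F], GenC K F →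
  ∃ (c : 𝓞 K) (art : (𝓞 K ⧸ Ideal.span {c})ˣ →* Gal(F/K)), GoodC c ∧ IsArtin c art ∧ IsLoc c art

/-! ## Fields without cube roots of unity -/

/-- PIECE G1: the analytic theorem over a field `k` with `k(√-3) = F` -/
def P_G1 : Prop := ∀ (K F k : Type) [Field K] [NumberField K] [IsCyclotomicExtension {3} ℚ K]
  [Field F] [NumberField F] [Algebra K F] [IsGalois K F] [Field k] [NumberField k] [Algebra k F]
  (n : ℕ), Module.finrank K F = 3 ^ n →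
  ∀ (c : 𝓞 K) (art : (𝓞 K ⧸ Ideal.span {c})ˣ →* Gal(F/K)), IsArtin c art → GoodC c →
    Module.finrank k F = 2 → (∀ x : k, x ^ 2 ≠ -3) →
    ∃ Lf : ℂ → ℂ, MeromorphicOn Lf Set.univ ∧
      (∀ s : ℂ, 3 / 2 < s.re → HasProd (fun w : HeightOneSpectrum (𝓞 k) => fac w s) (Lf s)) ∧
      AnalyticAt ℂ Lf 1 ∧ Lf 1 ≠ 0 ∧
      ∀ (L : PeriodPair) (ω : ℝ), L.g₂ = 0 → L.g₃ = 4 →
        IsLeast {t : ℝ | 0 < t ∧ (t : ℂ) ∈ L.lattice} ω →
        ∀ (Γ : Type) [LinearOrderedCommGroupWithZero Γ] (v : Valuation ℂ Γ), v 3 < 1 →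
          v (Lf 1 / (ω : ℂ) ^ Module.finrank ℚ k) = 1

/-! ## The curves `y² = x³ - D²` over `ℚ` -/

/-- the curve `y² = x³ - D²` -/
def ED (D : ℕ) (R : Type) [CommRing R] : WeierstrassCurve R := ⟨0, 0, 0, 0, -(D : R) ^ 2⟩

/-- PIECE H1: the cubic residue symbol of `D` as a character modulo `D` -/
def P_H1 : Prop := ∀ D : ℕ, DCls D → ∃ η : MulChar (eis ⧸ (sp (D : eis) : Ideal eis)) ℂ,
  η ^ 3 = 1 ∧ (∀ u : eis, IsUnit u → et η u = 1) ∧
  ∀ π : eis, Prime π → IsCoprime π 3 → IsCoprime π (D : eis) →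
    ∃ z : eis, z ^ 3 = 1 ∧
      π ∣ (D : eis) ^ ((Nat.card (eis ⧸ (sp π : Ideal eis)) - 1) / 3) - z ∧
      et η π = (starRingEnd ℂ) (z : ℂ)

/-- PIECE H2: the number of points of `y² = x³ - D²` -/
def P_H2 : Prop := ∀ (k : Type) [Field k] [Fintype k] (ρ : eis →+* k) (π : eis), Prime π → Prm π →
  (2 : k) ≠ 0 → (3 : k) ≠ 0 → (∀ x, ρ x = 0 ↔ π ∣ x) → ∀ f : ℕ,
  ((Fintype.card k : ℕ) : eis) = (π * cj π) ^ f → ∀ (D : ℕ) (z : eis), (D : k) ≠ 0 → z ^ 3 = 1 →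
    ρ z = (D : k) ^ ((Fintype.card k - 1) / 3) →
    ((Nat.card {p : k × k // p.2 ^ 2 = p.1 ^ 3 - (D : k) ^ 2} : ℕ) : eis) =
      ((Fintype.card k : ℕ) : eis) - (π ^ f * cj z + (cj π) ^ f * z)

/-- the Euler factor of `L(E_D/ℚ, s)` at `p`; it is `1` if `p` divides `6 D` -/
noncomputable def facQ (D : ℕ) (p : ℕ) (s : ℂ) : ℂ :=
  if p ∣ 6 * D then 1 else
    (1 - (((p : ℤ) - Nat.card {P : ZMod p × ZMod p // P.2 ^ 2 = P.1 ^ 3 - (D : ZMod p) ^ 2} : ℤ) : ℂ) *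
      (p : ℂ) ^ (-s) + (p : ℂ) ^ (1 - 2 * s))⁻¹

/-- PIECE H3 (from B1, B3, B4, B5, H1, H2): the value of `L(E_D/ℚ, s)` at one -/
def P_H3 : Prop := ∀ D : ℕ, DCls D → ∃ Lf : ℂ → ℂ, Differentiable ℂ Lf ∧
  (∀ s : ℂ, 3 / 2 < s.re → HasProd (fun p : Nat.Primes => facQ D p s) (Lf s)) ∧ Lf 1 ≠ 0 ∧
  ∀ (L : PeriodPair) (ω : ℝ), L.g₂ = 0 → L.g₃ = 4 * (D : ℂ) ^ 2 →
    IsLeast {t : ℝ | 0 < t ∧ (t : ℂ) ∈ L.lattice} ω →
    ∀ (Γ : Type) [LinearOrderedCommGroupWithZero Γ] (v : Valuation ℂ Γ), v 3 < 1 →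
      v (Lf 1 / (ω : ℂ)) = 1

/-- PIECE H5: minimality and Tamagawa numbers of `y² = x³ - D²` over `ℚ` -/
def P_H5 : Prop := ∀ D : ℕ, DCls D → ∀ v : HeightOneSpectrum (𝓞 ℚ),
    IsMinimal (v.adicCompletionIntegers ℚ) ((ED D ℚ).baseChange (v.adicCompletion ℚ)) ∧
    ∃ H : AddSubgroup ((ED D ℚ).baseChange (v.adicCompletion ℚ)).toAffine.Point,
      (∀ P, P ∈ H ↔ NonsingRed Valued.v ((ED D ℚ).baseChange (v.adicCompletion ℚ)) P) ∧
      H.index ≠ 0 ∧ ¬ 3 ∣ H.index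

/-- PIECE H6 (from A8, A10, E2): the points and the Tate-Shafarevich group of `y² = x³ - D²` -/
def P_H6 : Prop := ∀ D : ℕ, DCls D → Finite (ED D ℚ).toAffine.Point ∧
  ¬ 3 ∣ Nat.card (ED D ℚ).toAffine.Point ∧
  ∀ (n : ℕ) (x : Pool.Agent.TH841.NF.D.Sha (ED D ℚ)), 3 ^ n • x = 0 → x = 0

/-- PIECE H7: the least positive real period is the integral of the invariant differential over the
(connected) group of the real points, and it exists -/
def P_H7 : Prop := ∀ D : ℕ, 0 < D →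
  (∃ (L : PeriodPair) (ω : ℝ), L.g₂ = 0 ∧ L.g₃ = 4 * (D : ℂ) ^ 2 ∧
    IsLeast {t : ℝ | 0 < t ∧ (t : ℂ) ∈ L.lattice} ω) ∧
  ∀ (L : PeriodPair) (ω : ℝ), L.g₂ = 0 → L.g₃ = 4 * (D : ℂ) ^ 2 →
    IsLeast {t : ℝ | 0 < t ∧ (t : ℂ) ∈ L.lattice} ω →
    ω = 2 * ∫ x in {x : ℝ | 0 < x ^ 3 - (D : ℝ) ^ 2}, 1 / (2 * √(x ^ 3 - (D : ℝ) ^ 2))

/-- PIECE H8: the number of the numbers `D` of the class -/
def P_H8 : Prop := ∃ c : ℝ, 0 < c ∧ ∃ X₀ : ℕ, ∀ X : ℕ, X₀ ≤ X →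
  c * (X / (Real.log X) ^ ((3 : ℝ) / 4)) ≤ (((Finset.Icc 1 X).filter fun D => DCls D).card : ℝ)

/-! ## The twists by the representations of `Gal(F / ℚ)` -/

section rep

/-- The vectors that are fixed by `ρ g` for all `g` in the set `I`. -/
def fixedBy {G V : Type} [AddCommGroup V] [Module ℂ V] (ρ : G → V →ₗ[ℂ] V) (I : Set G) :
    Submodule ℂ V where
  carrier := {v | ∀ g ∈ I, ρ g v = v}
  add_mem' := fun {u v} hu hv g hg => by rw [map_add, hu g hg, hv g hg]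
  zero_mem' := fun g _ => map_zero _
  smul_mem' := fun a v hv g hg => by rw [map_smul, hv g hg]

/-- The determinant of `1 - x B + y B²`. -/
noncomputable def det₂ {V : Type} [AddCommGroup V] [Module ℂ V] (B : V →ₗ[ℂ] V) (x y : ℂ) : ℂ :=
  LinearMap.det (LinearMap.id - x • B + y • (B ∘ₗ B))

variable {F : Type} [Field F] [NumberField F] {V : Type} [AddCommGroup V] [Module ℂ V]

/-- The vectors of `τ` that are fixed by the inertia group of the prime `w` of `F`. -/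
abbrev invariants (τ : Representation ℂ (F ≃ₐ[ℚ] F) V) (w : HeightOneSpectrum (𝓞 F)) :
    Submodule ℂ V :=
  fixedBy (fun σ => τ σ) {g | g ∈ w.asIdeal.inertia (F ≃ₐ[ℚ] F)}

/-- The prime `w` of `F` lies above `p`, and `B` is the restriction of `τ (σ⁻¹)` to the invariants of
the inertia group, where `σ` is a Frobenius element at `w`. -/
def IsFrobenius (τ : Representation ℂ (F ≃ₐ[ℚ] F) V) (p : ℕ) (w : HeightOneSpectrum (𝓞 F))
    (B : invariants τ w →ₗ[ℂ] invariants τ w) : Prop :=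
  (p : 𝓞 F) ∈ w.asIdeal ∧ ∃ σ : F ≃ₐ[ℚ] F, IsArithFrobAt ℤ σ w.asIdeal ∧
    ∀ v, (B v : V) = τ σ⁻¹ (v : V)

/-- The Euler factor of `L(E / ℚ, τ, s)` at `p`, `E : y² = x³ - 1`: it is `1` for `p = 2, 3`. -/
noncomputable def facR {U : Type} [AddCommGroup U] [Module ℂ U] (s : ℂ) (p : ℕ)
    (B : U →ₗ[ℂ] U) : ℂ :=
  if p ∣ 6 then 1 else
    (det₂ B ((((p : ℤ) - Nat.card {P : ZMod p × ZMod p // P.2 ^ 2 = P.1 ^ 3 - 1} : ℤ) : ℂ) *
      (p : ℂ) ^ (-s)) ((p : ℂ) ^ (1 - 2 * s)))⁻¹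

/-- A choice of a prime `w_p` of `F` above `p` and of the inverse of a Frobenius element on the
invariants of the inertia group, for all `p`. -/
def IsChoice (τ : Representation ℂ (F ≃ₐ[ℚ] F) V) (w : Nat.Primes → HeightOneSpectrum (𝓞 F))
    (B : ∀ p : Nat.Primes, invariants τ (w p) →ₗ[ℂ] invariants τ (w p)) : Prop :=
  ∀ p : Nat.Primes, IsFrobenius τ p (w p) (B p)

/-- `L` is an entire function that is equal to the Euler product `L(E / ℚ, τ, s)` for `Re s > 3/2`. -/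
def IsLFun (τ : Representation ℂ (F ≃ₐ[ℚ] F) V) (L : ℂ → ℂ) : Prop :=
  Differentiable ℂ L ∧ (∃ w B, IsChoice τ w B) ∧
  ∀ w B, IsChoice τ w B → ∀ s : ℂ, 3 / 2 < s.re →
    HasProd (fun p : Nat.Primes => facR s p (B p)) (L s)

end rep

/-- PIECE M1: the twists of `y² = x³ - 1` by all the representations of `Gal(F/ℚ)` -/
def P_M1 : Prop := ∀ (K F : Type) [Field K] [NumberField K] [IsCyclotomicExtension {3} ℚ K]
  [Field F] [NumberField F] [Algebra K F] [IsGalois K F] [IsGalois ℚ F] (n : ℕ),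
  Module.finrank K F = 3 ^ n →
  ∀ (c : 𝓞 K) (art : (𝓞 K ⧸ Ideal.span {c})ˣ →* Gal(F/K)), IsArtin c art → IsLoc c art →
    GoodC c → ∀ (V : Type) [AddCommGroup V] [Module ℂ V] [FiniteDimensional ℂ V]
      (τ : Representation ℂ (F ≃ₐ[ℚ] F) V), ∃ L : ℂ → ℂ, IsLFun τ L ∧ L 1 ≠ 0

/-- PIECE M0 (from B1, B3, B5): the primitive Hecke L-functions.  For every character `η` modulo `c` of
`3`-power order which is trivial on the units there is a function `e` on the primes of `ℤ[ω]` with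
`e P = η(π)` at the primes `P = (π)` that do not divide `c`, with `e P = 0` or a root of unity of
`3`-power order at the primes that divide `c`, `e P ≠ 0` exactly if `η` is trivial on the classes that
are `1` modulo the part of `c` prime to `P`, in this case `e P = η(α)` for the `α` prime to `c` with
`α ≡ π` modulo the part of `c` prime to `P`, and the Euler product of `psim(P) e(P)` is an entire
function that does not vanish at `1` -/
def P_M0 : Prop := ∀ (c : eis) (η : MulChar (eis ⧸ (sp c : Ideal eis)) ℂ), c ≠ 0 →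
  IsCoprime c 2 → IsCoprime c 3 →
  (∀ P : HeightOneSpectrum eis, c ∈ P.asIdeal → ∀ x : eis, x ^ 2 + 1 ∉ P.asIdeal) →
  (∀ u : eis, IsUnit u → et η u = 1) → (∃ k : ℕ, η ^ (3 ^ k) = 1) →
  ∃ (e : HeightOneSpectrum eis → ℂ) (Lf : ℂ → ℂ),
    (∀ P : HeightOneSpectrum eis, c ∉ P.asIdeal → e P = et η (gP P)) ∧
    (∀ P : HeightOneSpectrum eis, c ∈ P.asIdeal → e P = 0 ∨ ∃ k : ℕ, e P ^ (3 ^ k) = 1) ∧
    (∀ (P : HeightOneSpectrum eis) (c₁ c₂ : eis), c ∈ P.asIdeal → c = c₁ * c₂ →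
      (∀ Q : HeightOneSpectrum eis, c₁ ∈ Q.asIdeal → Q = P) → c₂ ∉ P.asIdeal →
      (e P ≠ 0 ↔ ∀ α : eis, IsCoprime α c → c₂ ∣ α - 1 → et η α = 1) ∧
      (e P ≠ 0 → ∀ α : eis, IsCoprime α c → c₂ ∣ α - gP P → e P = et η α)) ∧
    Differentiable ℂ Lf ∧ Lf 1 ≠ 0 ∧
    ∀ s : ℂ, 3 / 2 < s.re → HasProd (fun P : HeightOneSpectrum eis =>
      (1 - psim P.asIdeal * e P * (nm P.asIdeal : ℂ) ^ (-s))⁻¹) (Lf s)

end Pool.Agent.W2helper24.TQ
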