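import Mathlib
import Pool.Agent.W2helper24.TQ.Stm2

/-!
# Project TQ (owner helper24), third part: the local theory over the fields `k` with `k(√-3) = F`
-/

set_option autoImplicit false

namespace Pool.Agent.W2helper24.TQ

open NumberField IsDedekindDomain WeierstrassCurve
open Pool.Agent.Y696
open scoped Classical

/-- PIECE G2: minimality and the Tamagawa numbers over `k` -/
def P_G2 : Prop := ∀ (K F k : Type) [Field K] [NumberField K] [IsCyclotomicExtension {3} ℚ K]
  [Field F] [NumberField F] [Algebra K F] [IsGalois K F] [Field k] [NumberField k] [Algebra k F]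
  (n : ℕ), Module.finrank K F = 3 ^ n → Ram K F → Module.finrank k F = 2 →
    (∀ x : k, x ^ 2 ≠ -3) → ∀ v : HeightOneSpectrum (𝓞 k),
    IsMinimal (v.adicCompletionIntegers k) ((Em k).baseChange (v.adicCompletion k)) ∧
    ∃ H : AddSubgroup ((Em k).baseChange (v.adicCompletion k)).toAffine.Point,
      (∀ P, P ∈ H ↔ NonsingRed Valued.v ((Em k).baseChange (v.adicCompletion k)) P) ∧
      H.index ≠ 0 ∧ ¬ 3 ∣ H.index

/-- PIECE G3: the `3`-part of the discriminant of `k` -/
def P_G3 : Prop := ∀ (K F k : Type) [Field K] [NumberField K] [IsCyclotomicExtension {3} ℚ K]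
  [Field F] [NumberField F] [Algebra K F] [IsGalois K F] [Field k] [NumberField k] [Algebra k F]
  (n : ℕ), Module.finrank K F = 3 ^ n → Ram K F → Module.finrank k F = 2 →
    (∀ x : k, x ^ 2 ≠ -3) →
    ∃ d : ℕ, ¬ 3 ∣ d ∧ (discr k).natAbs = 3 ^ InfinitePlace.nrComplexPlaces k * d

/-- PIECE G4 (from A8 and A10): the points and the Tate-Shafarevich group over `k` -/
def P_G4 : Prop := ∀ (K F k : Type) [Field K] [NumberField K] [IsCyclotomicExtension {3} ℚ K]
  [Field F] [NumberField F] [Algebra K F] [IsGalois K F] [Field k] [NumberField k] [Algebra k F]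
  (n : ℕ), Module.finrank K F = 3 ^ n → Ram K F → Module.finrank k F = 2 →
    (∀ x : k, x ^ 2 ≠ -3) → Finite (Em k).toAffine.Point ∧ ¬ 3 ∣ Nat.card (Em k).toAffine.Point ∧
    ∀ x : Pool.Agent.TH841.NF.D.Sha (Em k), 3 • x = 0 → x = 0

end Pool.Agent.W2helper24.TQ
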