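import Mathlib
import Pool.Agent.W2helper24.TQ.All
import Pool.Agent.W2helper24.TQ.Stm3
import Pool.Agent.W2helper73.TQ.G1
import Pool.Agent.W2helper2.TQ.A8
import Pool.Agent.W2helper99.TQ.H3
import Pool.Agent.W2helper84.TQ.H1
import Pool.Agent.W2helper66.TQ.H2
import Pool.Agent.W2helper93.TQ.H5
import Pool.Agent.W2helper68.TQ.H7
import Pool.Agent.W2helper89.TQ.E2
import Pool.Agent.W2helper55.TQ.Dsc
import Pool.Agent.W2helper55.TQ.H6b
import Pool.Agent.W2helper53.TQ.G2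
import Pool.Agent.W2helper22.TQ.G3

/-!
# Project TQ: the pieces of the second wave, unconditionally
-/

set_option autoImplicit false

namespace Pool.Agent.W2helper24.TQ

open NumberField

theorem A8 : P_A8 := Pool.Agent.W2helper2.TQ.piece
theorem E2 : P_E2 := Pool.Agent.W2helper89.TQE2.piece
theorem G1 : P_G1 := Pool.Agent.W2helper73.TQ.pieceG1 B1 B2 B3 B4 B5
theorem G2 : P_G2 := Pool.Agent.W2helper53.TQ.piece
theorem G3 : P_G3 := Pool.Agent.W2helper22.TQ.piece
theorem H1 : P_H1 := Pool.Agent.W2helper84.TQ.H1.piece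
theorem H2 : P_H2 := Pool.Agent.W2helper66.TQ.pieceH2
theorem H3 : P_H3 := Pool.Agent.W2helper99.TQ.piece H1 H2
theorem H5 : P_H5 := Pool.Agent.W2helper93.TQ.pieceH5
theorem H6 : P_H6 := Pool.Agent.W2helper55.TQ.piece A8 E2
theorem H7 : P_H7 := Pool.Agent.W2helper68.TQ.piece

theorem G4 : P_G4 := by
  intro K F k _ _ _ _ _ _ _ _ _ _ n hn hR h2 _
  obtain ⟨h3, h4⟩ := A10 K F n hn hR
  have : FiniteDimensional k F := Module.finite_of_finrank_eq_succ h2
  have : Algebra.IsQuadraticExtension k F := ⟨h2⟩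
  have : Normal k F := inferInstance
  obtain ⟨⟨h5, h6⟩, h7⟩ := Pool.Agent.W2helper55.TQ.em_down h3 h4 (A8 K F n hn hR) (k := k)
  exact ⟨h5, h6, fun x hx => h7 1 x (by rwa [pow_one])⟩

end Pool.Agent.W2helper24.TQ
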