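import Mathlib
import Pool.Agent.W2helper24.TQ.Stm2
import Pool.Agent.Y696.Fac
import Pool.Agent.Y696.Bld

/-!
# Project TQ: the Artin map of a subextension, and the ramification of an extension with an Artin map
-/

set_option autoImplicit false

namespace Pool.Agent.W2helper24.TQ

open NumberField IsDedekindDomain
open Pool.Agent.Y696 (IsArtin exists_above und und_lies)

section
variable {K F B : Type} [Field K] [NumberField K] [Field F] [NumberField F] [Field B] [NumberField B]
  [Algebra K F] [Algebra K B] [Algebra F B] [IsScalarTower K F B] [IsGalois K F] [IsGalois K B]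

/-- the restriction of the Artin map to a subextension -/
theorem art_restrict {c : 𝓞 K} {art : (𝓞 K ⧸ Ideal.span {c})ˣ →* Gal(B/K)} (h : IsArtin c art) :
    IsArtin c ((AlgEquiv.restrictNormalHom F).comp art) where
  surj := (AlgEquiv.restrictNormalHom_surjective B).comp h.surj
  unr := by
    intro v hv
    obtain ⟨w, hw⟩ := exists_above (F := F) (K := B) v
    have := hw
    have h1 : algebraMap (𝓞 K) (𝓞 B) c ∉ w.asIdeal := by
      intro h2
      refine hv ?_
      rw [hw.over, Ideal.mem_comap]
      have h3 : algebraMap (𝓞 F) (𝓞 B) (algebraMap (𝓞 K) (𝓞 F) c) = algebraMap (𝓞 K) (𝓞 B) c :=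
        (IsScalarTower.algebraMap_apply _ _ _ c).symm
      rw [h3]
      exact h2
    have h2 := h.unr w h1
    exact Algebra.IsUnramifiedAt.of_liesOver (𝓞 K) v.asIdeal w.asIdeal
  frob := by
    intro π hπ u hu v hv x
    obtain ⟨w, hw⟩ := exists_above (F := F) (K := B) v
    have hm : ∀ y : 𝓞 F, y ∈ v.asIdeal ↔ algebraMap (𝓞 F) (𝓞 B) y ∈ w.asIdeal := by
      intro y
      rw [hw.over, Ideal.mem_comap]
    have h1 : algebraMap (𝓞 K) (𝓞 B) π ∈ w.asIdeal := by
      have h3 : algebraMap (𝓞 F) (𝓞 B) (algebraMap (𝓞 K) (𝓞 F) π) = algebraMap (𝓞 K) (𝓞 B) π :=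
        (IsScalarTower.algebraMap_apply _ _ _ π).symm
      rw [← h3]
      exact (hm _).1 hv
    rw [hm, map_sub, map_pow]
    have h2 := h.frob π hπ u hu w h1 (algebraMap (𝓞 F) (𝓞 B) x)
    have h3 : algebraMap (𝓞 F) (𝓞 B) (((AlgEquiv.restrictNormalHom F).comp art) u • x) =
        art u • algebraMap (𝓞 F) (𝓞 B) x := by
      apply RingOfIntegers.ext
      show algebraMap F B ((AlgEquiv.restrictNormalHom F (art u)) (x : F)) =
        art u (algebraMap F B (x : F))
      exact AlgEquiv.restrictNormal_commutes (art u) F (x : F)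
    rw [h3]
    exact h2

end

section
variable {K F : Type} [Field K] [NumberField K] [Field F] [NumberField F] [Algebra K F]

/-- the ramification of an extension with an Artin map whose modulus is good -/
theorem ram_of_art {c : 𝓞 K} {art : (𝓞 K ⧸ Ideal.span {c})ˣ →* Gal(F/K)} (h : IsArtin c art)
    (hc : GoodC c) : Ram K F := by
  intro w hw
  have h1 : algebraMap (𝓞 K) (𝓞 F) c ∈ w.asIdeal := by
    by_contra h2
    exact hw (h.unr w h2)
  constructor
  · intro h3
    obtain ⟨a, b, hab⟩ := hc.2.1
    have h4 := congrArg (algebraMap (𝓞 K) (𝓞 F)) hab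
    rw [map_add, map_mul, map_mul, map_one, map_ofNat] at h4
    refine w.isPrime.ne_top ((Ideal.eq_top_iff_one _).2 ?_)
    rw [← h4]
    refine add_mem (Ideal.mul_mem_left _ _ h1) (Ideal.mul_mem_left _ _ ?_)
    rw [show (6 : 𝓞 F) = 2 * 3 by norm_num]
    exact Ideal.mul_mem_left _ _ h3
  · intro x hx
    refine hc.2.2 (und w) ?_ x ?_
    · have := und_lies (F := K) w
      exact (Ideal.mem_of_liesOver w.asIdeal (und w).asIdeal c).2 h1
    · have := und_lies (F := K) w
      exact (Ideal.mem_of_liesOver w.asIdeal (und w).asIdeal (x ^ 2 + 1)).2 hx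

end

end Pool.Agent.W2helper24.TQ
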