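import Mathlib
import Pool.Agent.W2helper24.TQ.Stm2

/-!
# Project TQ (owner helper24), fifth part: the fields that are generated by roots of unity and cube roots
-/

set_option autoImplicit false

namespace Pool.Agent.W2helper24.TQ

open NumberField IsDedekindDomain WeierstrassCurve
open Pool.Agent.Y696
open scoped Classical

/-- PIECE E7: the Artin map of a field that is generated by roots of unity of order `m`, `m` composed of
primes `≡ 7 mod 12`, and by cube roots of numbers of the class -/
def P_E7 : Prop := ∀ (K B : Type) [Field K] [NumberField K] [IsCyclotomicExtension {3} ℚ K]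
  [Field B] [NumberField B] [Algebra K B] [IsGalois K B] (m : ℕ), 0 < m →
  (∀ q : ℕ, q.Prime → q ∣ m → q % 12 = 7) →
  ∀ S : Set B, (∀ x ∈ S, ∃ D : ℕ, DCls D ∧ x ^ 3 = (D : B)) →
    IntermediateField.adjoin K ({z : B | z ^ m = 1} ∪ S) = ⊤ →
    ∃ (c : 𝓞 K) (art : (𝓞 K ⧸ Ideal.span {c})ˣ →* Gal(B/K)), GoodC c ∧ IsArtin c art

end Pool.Agent.W2helper24.TQ
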