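import Mathlib
import Pool.Agent.W2helper24.TQ.Stm5
import Pool.Agent.W2helper24.TQ.E8

/-!
# Project TQ: the number fields contained in the infinite extension `Om` of `ℚ`
-/

set_option autoImplicit false

namespace Pool.Agent.W2helper24.TQ

open IntermediateField Polynomial NumberField

/-- `m` is composed of primes `≡ 7 mod 12` -/
def Con (m : ℕ) : Prop := 0 < m ∧ ∀ q : ℕ, q.Prime → q ∣ m → q % 12 = 7

/-- the square roots of `-3` -/
def gRt : Set ℂ := {z | z ^ 2 = -3}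

/-- the cube roots -/
def gCb : Set ℂ := {z | ∃ D : ℕ, DCls D ∧ z ^ 3 = D}

/-- the numbers of degree `3 ^ n` in the cyclotomic fields -/
def gCy : Set ℂ := {z | (∃ n, (minpoly ℚ z).natDegree = 3 ^ n) ∧
  ∃ m, Con m ∧ z ∈ adjoin ℚ {ζ : ℂ | ζ ^ m = 1}}

/-- the infinite extension -/
noncomputable def Om : IntermediateField ℚ ℂ := adjoin ℚ (gRt ∪ (gCb ∪ gCy))

/-- the cube root of unity -/
noncomputable def wC : ℂ := Complex.exp (2 * Real.pi * Complex.I / (3 : ℕ))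

lemma wC_prim : IsPrimitiveRoot wC 3 := Complex.isPrimitiveRoot_exp 3 (by norm_num)

lemma wC_rel : wC ^ 2 + wC + 1 = 0 := by
  have h1 := wC_prim.pow_eq_one
  have h2 : wC ≠ 1 := wC_prim.ne_one (by norm_num)
  have h3 : (wC - 1) * (wC ^ 2 + wC + 1) = 0 := by linear_combination h1
  exact (mul_eq_zero.1 h3).resolve_left (sub_ne_zero.2 h2)

lemma wC_cube : wC ^ 3 = 1 := wC_prim.pow_eq_one

/-- cube roots of one -/
lemma cube_one_cases {z : ℂ} (h : z ^ 3 = 1) : z = 1 ∨ z = wC ∨ z = wC ^ 2 := by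
  have h3 : (z - 1) * ((z - wC) * (z - wC ^ 2)) = 0 := by
    have h4 : wC ^ 2 = -wC - 1 := by linear_combination wC_rel
    rw [h4]
    linear_combination h + (-z + 1) * wC_rel
  rcases mul_eq_zero.1 h3 with h | h
  · exact Or.inl (sub_eq_zero.1 h)
  rcases mul_eq_zero.1 h with h | h
  · exact Or.inr (Or.inl (sub_eq_zero.1 h))
  · exact Or.inr (Or.inr (sub_eq_zero.1 h))

lemma sqrt_cases {z : ℂ} (h : z ^ 2 = -3) : z = 2 * wC + 1 ∨ z = -(2 * wC + 1) := by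
  have h3 : (z - (2 * wC + 1)) * (z + (2 * wC + 1)) = 0 := by
    linear_combination h - 4 * wC_rel
  rcases mul_eq_zero.1 h3 with h | h
  · exact Or.inl (sub_eq_zero.1 h)
  · exact Or.inr (eq_neg_of_add_eq_zero_left h)

/-- the algebraic closure of `ℚ` in `ℂ` -/
noncomputable abbrev Ec : IntermediateField ℚ ℂ := algebraicClosure ℚ ℂ

noncomputable instance : IsAlgClosure ℚ Ec := algebraicClosure.isAlgClosure ℚ ℂ

noncomputable instance : IsGalois ℚ Ec := IsAlgClosure.isGalois ℚ Ec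

lemma mem_Ec {z : ℂ} : z ∈ Ec ↔ IsAlgebraic ℚ z := mem_algebraicClosure_iff

lemma root_mem_Ec {z : ℂ} {n : ℕ} (hn : 0 < n) {a : ℚ} (h : z ^ n = a) : z ∈ Ec := by
  rw [mem_Ec]
  refine ⟨X ^ n - C a, (monic_X_pow_sub_C a hn.ne').ne_zero, ?_⟩
  rw [map_sub, map_pow, aeval_X, aeval_C, h]
  simp

lemma wC_mem : wC ∈ Ec := root_mem_Ec (n := 3) (a := 1) (by norm_num) (by rw [wC_cube]; simp)

/-- the cube root of unity in the algebraic closure -/
noncomputable def wE : Ec := ⟨wC, wC_mem⟩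

/-- the elements that are fixed by the powers of order `3 ^ N` of the automorphisms over `ℚ(ω)` -/
def Fx (z : ℂ) : Prop := ∃ (z' : Ec) (N : ℕ), (z' : ℂ) = z ∧
  ∀ g : Ec ≃ₐ[ℚ] Ec, g wE = wE → (g ^ 3 ^ N) z' = z'

lemma fx_mono {g : Ec ≃ₐ[ℚ] Ec} {z : Ec} {N M : ℕ} (h : N ≤ M) (hg : (g ^ 3 ^ N) z = z) :
    (g ^ 3 ^ M) z = z := by
  obtain ⟨k, rfl⟩ := Nat.exists_eq_add_of_le h
  rw [pow_add, pow_mul]
  generalize g ^ 3 ^ N = f at hg
  have : ∀ j : ℕ, (f ^ j) z = z := by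
    intro j
    induction j with
    | zero => rfl
    | succ j ih =>
      rw [pow_succ, AlgEquiv.mul_apply, hg, ih]
  exact this _

lemma fx_Rt {z : ℂ} (h : z ∈ gRt) : Fx z := by
  rcases sqrt_cases h with rfl | rfl
  · refine ⟨2 * wE + 1, 0, rfl, fun g hg => ?_⟩
    rw [pow_zero, pow_one, map_add, map_mul, hg, map_ofNat, map_one]
  · refine ⟨-(2 * wE + 1), 0, rfl, fun g hg => ?_⟩
    rw [pow_zero, pow_one, map_neg, map_add, map_mul, hg, map_ofNat, map_one]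

lemma fx_Cb {z : ℂ} (h : z ∈ gCb) : Fx z := by
  obtain ⟨D, hD, hz⟩ := h
  have hm : z ∈ Ec := root_mem_Ec (n := 3) (a := (D : ℚ)) (by norm_num) (by rw [hz]; simp)
  have hD0 : (D : ℂ) ≠ 0 := by exact_mod_cast hD.1.ne'
  have hz0 : z ≠ 0 := by
    rintro rfl
    exact hD0 (by rw [← hz]; norm_num)
  refine ⟨⟨z, hm⟩, 1, rfl, fun g hg => ?_⟩
  have h1 : ((g ⟨z, hm⟩ : Ec) : ℂ) ^ 3 = D := by
    have h2 : (⟨z, hm⟩ : Ec) ^ 3 = ((D : ℕ) : Ec) := Subtype.ext hz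
    have h3 := congrArg g h2
    rw [map_pow, map_natCast] at h3
    exact congrArg (fun x : Ec => (x : ℂ)) h3
  have h2 : (((g ⟨z, hm⟩ : Ec) : ℂ) / z) ^ 3 = 1 := by
    rw [div_pow, h1, hz, div_self hD0]
  obtain ⟨u, hu, hu2⟩ : ∃ u : Ec, g u = u ∧ u ^ 3 = 1 ∧ g ⟨z, hm⟩ = u * ⟨z, hm⟩ := by
    have hw3 : wE ^ 3 = 1 := Subtype.ext wC_cube
    rcases cube_one_cases h2 with h3 | h3 | h3
    · refine ⟨1, map_one _, one_pow _, Subtype.ext ?_⟩
      rw [div_eq_iff hz0] at h3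
      exact h3
    · refine ⟨wE, hg, hw3, Subtype.ext ?_⟩
      rw [div_eq_iff hz0] at h3
      exact h3
    · refine ⟨wE ^ 2, by rw [map_pow, hg], by rw [← pow_mul, mul_comm, pow_mul, hw3, one_pow],
        Subtype.ext ?_⟩
      rw [div_eq_iff hz0] at h3
      exact h3
  rw [pow_one, pow_succ, pow_two, AlgEquiv.mul_apply, AlgEquiv.mul_apply, hu2.2, map_mul, hu,
    hu2.2, map_mul, map_mul, hu, hu2.2]
  linear_combination (⟨z, hm⟩ : Ec) * hu2.1

/-- automorphisms commute on the roots of unity -/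
lemma comm_root {m : ℕ} (hm : 0 < m) {ζ : Ec} (hζ : ζ ^ m = 1) (g h : Ec ≃ₐ[ℚ] Ec) :
    g (h ζ) = h (g ζ) := by
  obtain ⟨d, hd, hp⟩ : ∃ d : ℕ, d ≠ 0 ∧ IsPrimitiveRoot ζ d :=
    ⟨orderOf ζ, (orderOf_pos_iff.2 (isOfFinOrder_iff_pow_eq_one.2 ⟨m, hm, hζ⟩)).ne',
      IsPrimitiveRoot.orderOf ζ⟩
  have : NeZero d := ⟨hd⟩
  have key : ∀ f : Ec ≃ₐ[ℚ] Ec, ∃ a : ℕ, f ζ = ζ ^ a := by
    intro f
    have h1 : (f ζ) ^ d = 1 := by rw [← map_pow, hp.pow_eq_one, map_one]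
    obtain ⟨a, -, ha⟩ := hp.eq_pow_of_pow_eq_one h1
    exact ⟨a, ha.symm⟩
  obtain ⟨a, ha⟩ := key g
  obtain ⟨b, hb⟩ := key h
  rw [hb, ha, map_pow, map_pow, ha, hb, ← pow_mul, ← pow_mul, mul_comm]

lemma fx_Cy {z : ℂ} (h : z ∈ gCy) : Fx z := by
  obtain ⟨⟨n, hn⟩, m, ⟨hm, -⟩, hz⟩ := h
  have hle : adjoin ℚ {ζ : ℂ | ζ ^ m = 1} ≤ Ec := by
    rw [adjoin_le_iff]
    intro ζ hζ
    exact root_mem_Ec hm (a := 1) (by rw [Rat.cast_one]; exact hζ)
  have hmE : z ∈ Ec := hle hz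
  set z' : Ec := ⟨z, hmE⟩ with hz'
  have hcomm : ∀ (x : ℂ) (hx : x ∈ adjoin ℚ {ζ : ℂ | ζ ^ m = 1}) (g h : Ec ≃ₐ[ℚ] Ec),
      g (h ⟨x, hle hx⟩) = h (g ⟨x, hle hx⟩) := by
    intro x hx g h
    have h1 : ((AlgHom.comp (Ec.val) ((g.toAlgHom.comp h.toAlgHom).comp (inclusion hle)))) =
        (AlgHom.comp (Ec.val) ((h.toAlgHom.comp g.toAlgHom).comp (inclusion hle))) := by
      refine algHom_ext_of_eq_adjoin ℚ rfl fun y hy => ?_
      have h2 := comm_root hm (ζ := ⟨y, hle (subset_adjoin _ _ hy)⟩) (Subtype.ext hy) g h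
      exact congrArg (fun x : Ec => (x : ℂ)) h2
    have h2 := DFunLike.congr_fun h1 ⟨x, hx⟩
    exact Subtype.ext h2
  let H : Subgroup (Ec ≃ₐ[ℚ] Ec) := (adjoin ℚ {z'}).fixingSubgroup
  have hmemH : ∀ g : Ec ≃ₐ[ℚ] Ec, g ∈ H ↔ g z' = z' := by
    intro g
    constructor
    · intro hg
      exact (IntermediateField.mem_fixingSubgroup_iff _ _).1 hg z' (mem_adjoin_simple_self ℚ z')
    · intro hg
      rw [IntermediateField.mem_fixingSubgroup_iff]
      intro x hx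
      have h1 : adjoin ℚ {z'} ≤ IntermediateField.fixedField (Subgroup.zpowers g) := by
        rw [adjoin_simple_le_iff, IntermediateField.mem_fixedField_iff]
        intro f hf
        obtain ⟨k, rfl⟩ := Subgroup.mem_zpowers_iff.1 hf
        have h2 : g ∈ MulAction.stabilizer (Ec ≃ₐ[ℚ] Ec) z' := hg
        exact (Subgroup.zpow_mem _ h2 k)
      exact (IntermediateField.mem_fixedField_iff _ _).1 (h1 hx) g (Subgroup.mem_zpowers g)
  have hN : H.Normal := by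
    refine ⟨fun h hh g => ?_⟩
    rw [hmemH] at hh ⊢
    have h1 := hcomm z hz (g * h) g⁻¹
    have h2 : g⁻¹ (g (h z')) = h z' := g.symm_apply_apply _
    have h3 := hcomm z hz h g⁻¹
    rw [AlgEquiv.mul_apply, AlgEquiv.mul_apply]
    have h4 : h (g⁻¹ z') = g⁻¹ z' := by
      rw [h3, hh]
    rw [h4]
    exact g.apply_symm_apply _
  have hidx : H.index = 3 ^ n := by
    have h1 := IntermediateField.finrank_eq_fixingSubgroup_index (F := ℚ) (E' := Ec) (adjoin ℚ {z'})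
    show (adjoin ℚ {z'}).fixingSubgroup.index = 3 ^ n
    rw [← h1, IntermediateField.adjoin.finrank (Algebra.IsIntegral.isIntegral z')]
    have h2 : minpoly ℚ z' = minpoly ℚ z := (minpoly.algebraMap_eq (A := ℚ) (B := Ec) (B' := ℂ)
      (FaithfulSMul.algebraMap_injective Ec ℂ) z').symm
    rw [h2, hn]
  refine ⟨z', n, rfl, fun g _ => ?_⟩
  rw [← hmemH, ← hidx]
  exact H.pow_index_mem g

lemma fx_Om {z : ℂ} (h : z ∈ Om) : Fx z := by
  unfold Om at h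
  induction h using adjoin_induction with
  | mem x hx =>
    rcases hx with hx | hx | hx
    · exact fx_Rt hx
    · exact fx_Cb hx
    · exact fx_Cy hx
  | algebraMap x =>
    refine ⟨algebraMap ℚ Ec x, 0, rfl, fun g _ => ?_⟩
    exact AlgEquiv.commutes _ _
  | add x y hx hy ihx ihy =>
    obtain ⟨x', N, rfl, h1⟩ := ihx
    obtain ⟨y', M, rfl, h2⟩ := ihy
    refine ⟨x' + y', max N M, rfl, fun g hg => ?_⟩
    rw [map_add, fx_mono (le_max_left N M) (h1 g hg), fx_mono (le_max_right N M) (h2 g hg)]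
  | inv x hx ihx =>
    obtain ⟨x', N, rfl, h1⟩ := ihx
    refine ⟨x'⁻¹, N, rfl, fun g hg => ?_⟩
    rw [map_inv₀, h1 g hg]
  | mul x y hx hy ihx ihy =>
    obtain ⟨x', N, rfl, h1⟩ := ihx
    obtain ⟨y', M, rfl, h2⟩ := ihy
    refine ⟨x' * y', max N M, rfl, fun g hg => ?_⟩
    rw [map_mul, fx_mono (le_max_left N M) (h1 g hg), fx_mono (le_max_right N M) (h2 g hg)]

end Pool.Agent.W2helper24.TQ
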