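import Mathlib
import Pool.Agent.W2helper24.TQ.Om1

/-!
# Project TQ: the number fields contained in `Om` that contain the cube roots of unity
-/

set_option autoImplicit false

namespace Pool.Agent.W2helper24.TQ

open IntermediateField Polynomial NumberField
open Pool.Agent.Y696 (IsArtin)

/-- the generators -/
def gB (m : ℕ) (T : Finset ℕ) : Set ℂ := {z | z ^ 3 = 1 ∨ z ^ m = 1 ∨ ∃ D ∈ T, z ^ 3 = (D : ℂ)}

/-- the field generated by roots of unity and cube roots -/
noncomputable def BB (m : ℕ) (T : Finset ℕ) : IntermediateField ℚ ℂ := adjoin ℚ (gB m T)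

/-- the polynomial -/
noncomputable def pB (m : ℕ) (T : Finset ℕ) : ℚ[X] :=
  (X ^ 3 - 1) * (X ^ m - 1) * ∏ D ∈ T, (X ^ 3 - C (D : ℚ))

lemma pB_ne {m : ℕ} (hm : 0 < m) (T : Finset ℕ) : pB m T ≠ 0 := by
  unfold pB
  refine mul_ne_zero (mul_ne_zero ?_ ?_) (Finset.prod_ne_zero_iff.2 fun D _ => ?_)
  · have := (monic_X_pow_sub_C (1 : ℚ) (n := 3) (by norm_num)).ne_zero
    rwa [C_1] at this
  · have := (monic_X_pow_sub_C (1 : ℚ) hm.ne').ne_zero
    rwa [C_1] at this
  · exact (monic_X_pow_sub_C _ (by norm_num)).ne_zero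

lemma gB_eq {m : ℕ} (hm : 0 < m) (T : Finset ℕ) : gB m T = (pB m T).rootSet ℂ := by
  ext z
  rw [mem_rootSet, gB, Set.mem_ofPred_eq]
  unfold pB
  rw [map_mul, map_mul, map_prod, mul_eq_zero, mul_eq_zero, Finset.prod_eq_zero_iff]
  simp only [map_sub, map_pow, aeval_X, map_one, aeval_C, sub_eq_zero]
  constructor
  · intro h
    refine ⟨pB_ne hm T, ?_⟩
    rcases h with h | h | ⟨D, hD, h⟩
    · exact Or.inl (Or.inl h)
    · exact Or.inl (Or.inr h)
    · exact Or.inr ⟨D, hD, by rw [h]; simp⟩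
  · rintro ⟨-, (h | h) | ⟨D, hD, h⟩⟩
    · exact Or.inl h
    · exact Or.inr (Or.inl h)
    · exact Or.inr (Or.inr ⟨D, hD, by rw [h]; simp⟩)

lemma split_BB {m : ℕ} (hm : 0 < m) (T : Finset ℕ) : (pB m T).IsSplittingField ℚ (BB m T) := by
  unfold BB
  rw [gB_eq hm]
  exact adjoin_rootSet_isSplittingField (IsAlgClosed.splits _)

lemma fin_BB {m : ℕ} (hm : 0 < m) (T : Finset ℕ) : FiniteDimensional ℚ (BB m T) :=
  have := split_BB hm T
  IsSplittingField.finiteDimensional (BB m T) (pB m T)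

lemma gal_BB {m : ℕ} (hm : 0 < m) (T : Finset ℕ) : IsGalois ℚ (BB m T) := by
  have := split_BB hm T
  have h1 : Normal ℚ (BB m T) := Normal.of_isSplittingField (pB m T)
  exact ⟨⟩

lemma BB_mono {m m' : ℕ} (h : m ∣ m') {T T' : Finset ℕ} (hT : T ⊆ T') : BB m T ≤ BB m' T' := by
  unfold BB
  refine adjoin.mono _ _ _ fun z hz => ?_
  rcases hz with hz | hz | ⟨D, hD, hz⟩
  · exact Or.inl hz
  · obtain ⟨k, rfl⟩ := h
    exact Or.inr (Or.inl (by rw [pow_mul, hz, one_pow]))
  · exact Or.inr (Or.inr ⟨D, hT hD, hz⟩)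

lemma wC_BB (m : ℕ) (T : Finset ℕ) : wC ∈ BB m T := subset_adjoin _ _ (Or.inl wC_cube)

lemma Con.mul {m m' : ℕ} (h : Con m) (h' : Con m') : Con (m * m') := by
  refine ⟨Nat.mul_pos h.1 h'.1, fun q hq hd => ?_⟩
  rcases (Nat.Prime.dvd_mul hq).1 hd with h1 | h1
  · exact h.2 q hq h1
  · exact h'.2 q hq h1

lemma con_one : Con 1 := ⟨one_pos, fun q hq h => by
  exact absurd (Nat.dvd_one.1 h) hq.ne_one⟩

/-- the elements of `Om` are contained in the fields `BB` -/
lemma exists_BB {z : ℂ} (h : z ∈ Om) : ∃ (m : ℕ) (T : Finset ℕ), Con m ∧ (∀ D ∈ T, DCls D) ∧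
    z ∈ BB m T := by
  unfold Om at h
  induction h using adjoin_induction with
  | mem x hx =>
    rcases hx with hx | hx | hx
    · refine ⟨1, ∅, con_one, by simp, ?_⟩
      have h1 : 2 * wC + 1 ∈ BB 1 ∅ := by
        refine add_mem (mul_mem ?_ (wC_BB _ _)) (one_mem _)
        exact ofNat_mem _ 2
      rcases sqrt_cases hx with rfl | rfl
      · exact h1
      · exact neg_mem h1
    · obtain ⟨D, hD, hx⟩ := hx
      exact ⟨1, {D}, con_one, by simpa using hD,
        subset_adjoin _ _ (Or.inr (Or.inr ⟨D, by simp, hx⟩))⟩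
    · obtain ⟨-, m, hm, hx⟩ := hx
      refine ⟨m, ∅, hm, by simp, ?_⟩
      exact adjoin.mono ℚ _ _ (fun z hz => Or.inr (Or.inl hz)) hx
  | algebraMap x => exact ⟨1, ∅, con_one, by simp, IntermediateField.algebraMap_mem _ x⟩
  | add x y hx hy ihx ihy =>
    obtain ⟨m, T, h1, h2, h3⟩ := ihx
    obtain ⟨m', T', h1', h2', h3'⟩ := ihy
    classical
    refine ⟨m * m', T ∪ T', h1.mul h1', fun D hD => ?_, ?_⟩
    · rcases Finset.mem_union.1 hD with h | h
      · exact h2 D h
      · exact h2' D h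
    · exact add_mem (BB_mono (dvd_mul_right m m') Finset.subset_union_left h3)
        (BB_mono (dvd_mul_left m' m) Finset.subset_union_right h3')
  | inv x hx ihx =>
    obtain ⟨m, T, h1, h2, h3⟩ := ihx
    exact ⟨m, T, h1, h2, inv_mem h3⟩
  | mul x y hx hy ihx ihy =>
    obtain ⟨m, T, h1, h2, h3⟩ := ihx
    obtain ⟨m', T', h1', h2', h3'⟩ := ihy
    classical
    refine ⟨m * m', T ∪ T', h1.mul h1', fun D hD => ?_, ?_⟩
    · rcases Finset.mem_union.1 hD with h | h
      · exact h2 D h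
      · exact h2' D h
    · exact mul_mem (BB_mono (dvd_mul_right m m') Finset.subset_union_left h3)
        (BB_mono (dvd_mul_left m' m) Finset.subset_union_right h3')

/-- the field of the cube roots of unity -/
noncomputable def Kw : IntermediateField ℚ ℂ := adjoin ℚ {wC}

instance cyc_Kw : IsCyclotomicExtension {3} ℚ Kw := by
  change IsCyclotomicExtension {3} ℚ (IntermediateField.adjoin ℚ {wC}).toSubalgebra
  rw [IntermediateField.adjoin_simple_toSubalgebra_of_isAlgebraic (mem_Ec.1 wC_mem)]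
  exact wC_prim.adjoin_isCyclotomicExtension ℚ

instance fin_Kw : FiniteDimensional ℚ Kw := IsCyclotomicExtension.finiteDimensional {3} ℚ Kw

instance nf_Kw : NumberField Kw := ⟨⟩

lemma wC_Kw : wC ∈ Kw := mem_adjoin_simple_self ℚ wC

lemma Kw_le_BB (m : ℕ) (T : Finset ℕ) : Kw ≤ BB m T := by
  unfold Kw
  rw [adjoin_simple_le_iff]
  exact wC_BB m T

/-- a number field is generated by one element -/
lemma exists_gen (F : IntermediateField ℚ ℂ) [NumberField F] : ∃ z : ℂ, F = adjoin ℚ {z} := by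
  obtain ⟨α, hα⟩ := Field.exists_primitive_element ℚ F
  refine ⟨α, ?_⟩
  apply le_antisymm
  · intro x hx
    have h2 : (⟨x, hx⟩ : F) ∈ adjoin ℚ {α} := by
      rw [hα]
      exact mem_top
    have h3 : ∀ y : F, y ∈ adjoin ℚ {α} → (y : ℂ) ∈ adjoin ℚ {(α : ℂ)} := by
      intro y hy
      induction hy using adjoin_induction with
      | mem z hz =>
        rw [Set.mem_singleton_iff] at hz
        rw [hz]
        exact mem_adjoin_simple_self ℚ (α : ℂ)
      | algebraMap r =>
        have h4 : ((algebraMap ℚ F r : F) : ℂ) = algebraMap ℚ ℂ r := by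
          rw [eq_ratCast, eq_ratCast]
          rfl
        rw [h4]
        exact IntermediateField.algebraMap_mem _ r
      | add a b _ _ ha hb => exact add_mem ha hb
      | inv a _ ha => exact inv_mem ha
      | mul a b _ _ ha hb => exact mul_mem ha hb
    exact h3 ⟨x, hx⟩ h2
  · rw [adjoin_simple_le_iff]
    exact α.2

lemma exists_BB_of_le {F : IntermediateField ℚ ℂ} [NumberField F] (h : F ≤ Om) :
    ∃ (m : ℕ) (T : Finset ℕ), Con m ∧ (∀ D ∈ T, DCls D) ∧ F ≤ BB m T := by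
  obtain ⟨z, hz⟩ := exists_gen F
  have h1 : z ∈ F := by
    rw [hz]
    exact mem_adjoin_simple_self ℚ z
  obtain ⟨m, T, h2, h3, h4⟩ := exists_BB (h h1)
  refine ⟨m, T, h2, h3, ?_⟩
  rw [hz, adjoin_simple_le_iff]
  exact h4

end Pool.Agent.W2helper24.TQ
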