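import Mathlib
import Pool.Agent.W2helper24.TQ.Om2

/-!
# Project TQ: the number fields contained in `Om`, the Artin map
-/

set_option autoImplicit false

namespace Pool.Agent.W2helper24.TQ

open IntermediateField Polynomial NumberField
open Pool.Agent.Y696 (IsArtin)

section
variable {m : ℕ} {T : Finset ℕ}

/-- the inclusion -/
noncomputable abbrev algB (m : ℕ) (T : Finset ℕ) : Algebra Kw (BB m T) :=
  (inclusion (Kw_le_BB m T)).toRingHom.toAlgebra

lemma galKB (hm : 0 < m) : letI := algB m T; IsGalois Kw (BB m T) := by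
  let := algB m T
  have : IsScalarTower ℚ Kw (BB m T) := IsScalarTower.of_algebraMap_eq fun x => rfl
  have := gal_BB hm T
  exact IsGalois.tower_top_of_isGalois ℚ Kw (BB m T)

lemma adjoin_top (hm : 0 < m) : letI := algB m T; adjoin Kw ({z : BB m T | z ^ m = 1} ∪
    {x : BB m T | ∃ D ∈ T, x ^ 3 = ((D : ℕ) : BB m T)}) = ⊤ := by
  let := algB m T
  have : IsScalarTower ℚ Kw (BB m T) := IsScalarTower.of_algebraMap_eq fun x => rfl
  have := galKB (T := T) hm
  have := fin_BB hm T
  have : FiniteDimensional Kw (BB m T) := Module.Finite.right ℚ Kw (BB m T)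
  set A := adjoin Kw ({z : BB m T | z ^ m = 1} ∪
    {x : BB m T | ∃ D ∈ T, x ^ 3 = ((D : ℕ) : BB m T)}) with hA
  have h0 : A.fixingSubgroup = ⊥ := by
    rw [eq_bot_iff]
    intro σ hσ
    rw [Subgroup.mem_bot]
    have h1 : ((BB m T).val.comp (σ.restrictScalars ℚ).toAlgHom) = (BB m T).val := by
      refine algHom_ext_of_eq_adjoin ℚ rfl fun y hy => ?_
      have key : σ ⟨y, subset_adjoin _ _ hy⟩ = ⟨y, subset_adjoin _ _ hy⟩ := by
        rcases hy with hy | hy | ⟨D, hD, hy⟩
        · have h2 : y ∈ Kw := by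
            rcases cube_one_cases hy with rfl | rfl | rfl
            · exact one_mem _
            · exact wC_Kw
            · exact pow_mem wC_Kw 2
          exact σ.commutes ⟨y, h2⟩
        · refine (IntermediateField.mem_fixingSubgroup_iff _ _).1 hσ _ (subset_adjoin _ _ ?_)
          exact Or.inl (Subtype.ext hy)
        · refine (IntermediateField.mem_fixingSubgroup_iff _ _).1 hσ _ (subset_adjoin _ _ ?_)
          exact Or.inr ⟨D, hD, Subtype.ext hy⟩
      exact congrArg (fun x : BB m T => (x : ℂ)) key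
    ext x
    exact DFunLike.congr_fun h1 x
  rw [← IsGalois.fixedField_fixingSubgroup A, h0]
  exact IntermediateField.fixedField_bot

end

/-- the Artin map -/
theorem exists_art (hE : P_E7) {F : IntermediateField ℚ ℂ} [NumberField F] (hF : F ≤ Om)
    (hK : Kw ≤ F) :
    letI : Algebra Kw F := (inclusion hK).toRingHom.toAlgebra
    IsGalois Kw F ∧ (∃ n, Module.finrank Kw F = 3 ^ n) ∧
      ∃ (c : 𝓞 Kw) (art : (𝓞 Kw ⧸ Ideal.span {c})ˣ →* Gal(F/Kw)), GoodC c ∧ IsArtin c art := by
  let : Algebra Kw F := (inclusion hK).toRingHom.toAlgebra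
  obtain ⟨m, T, hm, hT, hFB⟩ := exists_BB_of_le hF
  let := algB m T
  let : Algebra F (BB m T) := (inclusion hFB).toRingHom.toAlgebra
  have t1 : IsScalarTower ℚ Kw (BB m T) := IsScalarTower.of_algebraMap_eq fun x => rfl
  have t2 : IsScalarTower Kw F (BB m T) := IsScalarTower.of_algebraMap_eq fun x => rfl
  have t3 : IsScalarTower ℚ Kw F := IsScalarTower.of_algebraMap_eq fun x => rfl
  have g1 := galKB (T := T) hm.1
  have f1 := fin_BB hm.1 T
  have nf : NumberField (BB m T) := ⟨⟩
  obtain ⟨c, art, hc, hart⟩ := hE Kw (BB m T) m hm.1 hm.2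
    {x : BB m T | ∃ D ∈ T, x ^ 3 = ((D : ℕ) : BB m T)} (fun x ⟨D, hD, hx⟩ => ⟨D, hT D hD, hx⟩)
    (adjoin_top hm.1)
  have hab : IsMulCommutative Gal(BB m T/Kw) := by
    refine ⟨⟨fun a b => ?_⟩⟩
    obtain ⟨a, rfl⟩ := hart.surj a
    obtain ⟨b, rfl⟩ := hart.surj b
    rw [← map_mul, mul_comm, map_mul]
  have g2 : IsAbelianGalois Kw (BB m T) := { }
  have g3 : IsAbelianGalois Kw F := IsAbelianGalois.tower_bot Kw F (BB m T)
  have g4 : IsGalois Kw F := inferInstance
  refine ⟨g4, ?_, c, _, hc, art_restrict hart⟩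
  -- the degree
  have f2 : FiniteDimensional Kw F := Module.Finite.right ℚ Kw F
  have hp : IsPGroup 3 Gal(F/Kw) := by
    intro g
    obtain ⟨z, hz⟩ := exists_gen F
    have hzF : z ∈ F := by
      rw [hz]
      exact mem_adjoin_simple_self ℚ z
    obtain ⟨z', N, hz', hN⟩ := fx_Om (hF hzF)
    have hFE : F ≤ Ec := by
      intro x hx
      rw [mem_Ec]
      have h1 : IsAlgebraic ℚ (⟨x, hx⟩ : F) := Algebra.IsAlgebraic.isAlgebraic _
      exact (isAlgebraic_algebraMap_iff (R := ℚ) (S := F) (A := ℂ)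
        (FaithfulSMul.algebraMap_injective F ℂ)).2 h1
    let : Algebra F Ec := (inclusion hFE).toRingHom.toAlgebra
    have t4 : IsScalarTower ℚ F Ec := IsScalarTower.of_algebraMap_eq fun x => rfl
    refine ⟨N, ?_⟩
    have hl : ∀ (k : ℕ) (x : F), algebraMap F Ec ((g ^ k) x) =
        (((g.restrictScalars ℚ).liftNormal Ec) ^ k) (algebraMap F Ec x) := by
      intro k
      induction k with
      | zero => intro x; rfl
      | succ k ih =>
        intro x
        rw [pow_succ, pow_succ, AlgEquiv.mul_apply, AlgEquiv.mul_apply, ih]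
        congr 1
        exact ((g.restrictScalars ℚ).liftNormal_commutes Ec x).symm
    have hw : ((g.restrictScalars ℚ).liftNormal Ec) wE = wE := by
      have h1 := (g.restrictScalars ℚ).liftNormal_commutes Ec (⟨wC, hK wC_Kw⟩ : F)
      have h2 : (g.restrictScalars ℚ) (⟨wC, hK wC_Kw⟩ : F) = ⟨wC, hK wC_Kw⟩ :=
        g.commutes (⟨wC, wC_Kw⟩ : Kw)
      rw [h2] at h1
      exact h1
    have h3 := hN _ hw
    have h4 : (g ^ 3 ^ N) ⟨z, hzF⟩ = ⟨z, hzF⟩ := by
      apply (inclusion hFE).injective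
      have h5 := hl (3 ^ N) ⟨z, hzF⟩
      have h6 : algebraMap F Ec ⟨z, hzF⟩ = z' := Subtype.ext hz'.symm
      rw [h6, h3, ← h6] at h5
      exact h5
    have h5 : (F.val.comp ((g ^ 3 ^ N).restrictScalars ℚ).toAlgHom) = F.val := by
      refine algHom_ext_of_eq_adjoin ℚ hz fun y hy => ?_
      rw [Set.mem_singleton_iff] at hy
      subst hy
      exact congrArg (fun x : F => (x : ℂ)) h4
    ext x
    exact DFunLike.congr_fun h5 x
  have : Fact (Nat.Prime 3) := ⟨Nat.prime_three⟩
  obtain ⟨n, hn⟩ := (IsPGroup.iff_card).1 hp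
  exact ⟨n, by rw [← hn, IsGalois.card_aut_eq_finrank]⟩

end Pool.Agent.W2helper24.TQ
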