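import Mathlib
import Pool.Agent.W2helper24.TQ.All2
import Pool.Agent.W2helper24.TQ.Om3
import Pool.Agent.W2helper24.TQ.Alg

/-!
# Project TQ: the final form, lemmas
-/

set_option autoImplicit false

namespace Pool.Agent.W2helper24.TQ

open NumberField IsDedekindDomain

/-! ## the numbers of points at the bad places -/

section pts
variable {k : Type} [Field k] [Finite k]

lemma pts_two (h2 : (2 : k) = 0) (c : k) :
    Nat.card {P : k × k // P.2 ^ 2 = P.1 ^ 3 - c} = Nat.card k := by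
  have : CharP k 2 := CharTwo.of_one_ne_zero_of_two_eq_zero one_ne_zero h2
  have hb : Function.Bijective (fun y : k => y ^ 2) := by
    have h1 : Function.Injective (fun y : k => y ^ 2) := by
      intro a b hab
      have h3 : (a - b) ^ 2 = 0 := by
        have : (a - b) ^ 2 = a ^ 2 - b ^ 2 - 2 * (a * b) + 2 * b ^ 2 := by ring
        rw [this, h2]
        simp only at hab
        rw [hab]
        ring
      exact sub_eq_zero.1 (pow_eq_zero_iff (two_ne_zero)|>.1 h3)
    exact Finite.injective_iff_bijective.1 h1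
  refine Nat.card_eq_of_bijective (fun P : {P : k × k // P.2 ^ 2 = P.1 ^ 3 - c} => P.1.1) ⟨?_, ?_⟩
  · rintro ⟨⟨x, y⟩, h⟩ ⟨⟨x', y'⟩, h'⟩ hx
    have hx' : x = x' := hx
    subst hx'
    have hy : y = y' := hb.1 (h.trans h'.symm)
    subst hy
    rfl
  · intro x
    obtain ⟨y, hy⟩ := hb.2 (x ^ 3 - c)
    exact ⟨⟨(x, y), hy⟩, rfl⟩

lemma pts_three (h3 : (3 : k) = 0) (c : k) :
    Nat.card {P : k × k // P.2 ^ 2 = P.1 ^ 3 - c} = Nat.card k := by
  have hb : Function.Bijective (fun y : k => y ^ 3) := by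
    have h1 : Function.Injective (fun y : k => y ^ 3) := by
      intro a b hab
      have h4 : (a - b) ^ 3 = 0 := by
        have : (a - b) ^ 3 = a ^ 3 - b ^ 3 - 3 * (a * b * (a - b)) := by ring
        rw [this, h3]
        simp only at hab
        rw [hab]
        ring
      exact sub_eq_zero.1 (pow_eq_zero_iff (three_ne_zero)|>.1 h4)
    exact Finite.injective_iff_bijective.1 h1
  refine Nat.card_eq_of_bijective (fun P : {P : k × k // P.2 ^ 2 = P.1 ^ 3 - c} => P.1.2) ⟨?_, ?_⟩
  · rintro ⟨⟨x, y⟩, h⟩ ⟨⟨x', y'⟩, h'⟩ hx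
    have hx' : y = y' := hx
    subst hx'
    have h4 : x ^ 3 = x' ^ 3 := by
      simp only at h h'
      linear_combination h' - h
    have hy : x = x' := hb.1 h4
    subst hy
    rfl
  · intro y
    obtain ⟨x, hx⟩ := hb.2 (y ^ 2 + c)
    refine ⟨⟨(x, y), ?_⟩, rfl⟩
    simp only at hx ⊢
    rw [hx]
    ring

omit [Finite k] in
lemma pts_cusp : Nat.card {P : k × k // P.2 ^ 2 = P.1 ^ 3} = Nat.card k := by
  symm
  refine Nat.card_eq_of_bijective (fun t : k => (⟨(t ^ 2, t ^ 3), by ring⟩ :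
    {P : k × k // P.2 ^ 2 = P.1 ^ 3})) ⟨?_, ?_⟩
  · intro a b hab
    have h1 := congrArg (fun P : {P : k × k // P.2 ^ 2 = P.1 ^ 3} => P.1.1) hab
    have h2 := congrArg (fun P : {P : k × k // P.2 ^ 2 = P.1 ^ 3} => P.1.2) hab
    simp only at h1 h2
    by_cases ha : a = 0
    · subst ha
      have : b ^ 2 = 0 := by rw [← h1]; ring
      exact (pow_eq_zero_iff two_ne_zero |>.1 this).symm
    · have h3 : a ^ 2 * (a - b) = 0 := by linear_combination h2 - b * h1
      rcases mul_eq_zero.1 h3 with h | h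
      · exact absurd (pow_eq_zero_iff two_ne_zero |>.1 h) ha
      · exact sub_eq_zero.1 h
  · rintro ⟨⟨x, y⟩, h⟩
    simp only at h
    by_cases hx : x = 0
    · subst hx
      have hy : y = 0 := by
        have : y ^ 2 = 0 := by rw [h]; ring
        exact pow_eq_zero_iff two_ne_zero |>.1 this
      subst hy
      exact ⟨0, by simp⟩
    · refine ⟨y / x, Subtype.ext (Prod.ext ?_ ?_)⟩
      · show (y / x) ^ 2 = x
        rw [div_pow, h, div_eq_iff (pow_ne_zero 2 hx)]
        ring
      · show (y / x) ^ 3 = y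
        rw [div_pow, div_eq_iff (pow_ne_zero 3 hx), ← h]
        ring

end pts

/-! ## the final form -/

open Pool.Agent.Y696 (IsArtin NonsingRed)
open Pool.Agent.TH841.NF.D (Sha)
open WeierstrassCurve
open scoped Classical

/-- the analytic theorem for the number field `k` -/
def OutA (k : Type) [Field k] [NumberField k] : Prop :=
  ∃ Lf : ℂ → ℂ, MeromorphicOn Lf Set.univ ∧
    (∀ s : ℂ, 3 / 2 < s.re → HasProd (fun w : HeightOneSpectrum (𝓞 k) => fac w s) (Lf s)) ∧
    AnalyticAt ℂ Lf 1 ∧ Lf 1 ≠ 0 ∧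
    ∀ (L : PeriodPair) (ω : ℝ), L.g₂ = 0 → L.g₃ = 4 →
      IsLeast {t : ℝ | 0 < t ∧ (t : ℂ) ∈ L.lattice} ω →
      ∀ (Γ : Type) [LinearOrderedCommGroupWithZero Γ] (v : Valuation ℂ Γ), v 3 < 1 →
        v (Lf 1 * (Real.sqrt |(discr k : ℝ)| : ℝ) / ((ω : ℂ) ^ InfinitePlace.nrRealPlaces k *
          ((2 * |((starRingEnd ℂ) L.ω₁ * L.ω₂).im| : ℝ) : ℂ) ^ InfinitePlace.nrComplexPlaces k)) = 1

/-- the algebraic theorem for the number field `k` -/
def OutB (k : Type) [Field k] [NumberField k] : Prop :=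
  Finite (Em k).toAffine.Point ∧ ¬ 3 ∣ Nat.card (Em k).toAffine.Point ∧
    ∀ x : Sha (Em k), 3 • x = 0 → x = 0

/-- the local theorem for the number field `k` -/
def OutC (k : Type) [Field k] [NumberField k] : Prop :=
  ∀ v : HeightOneSpectrum (𝓞 k),
    IsMinimal (v.adicCompletionIntegers k) ((Em k).baseChange (v.adicCompletion k)) ∧
    ∃ H : AddSubgroup ((Em k).baseChange (v.adicCompletion k)).toAffine.Point,
      (∀ P, P ∈ H ↔ NonsingRed Valued.v ((Em k).baseChange (v.adicCompletion k)) P) ∧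
      H.index ≠ 0 ∧ ¬ 3 ∣ H.index

section out
variable {K F k : Type} [Field K] [NumberField K] [IsCyclotomicExtension {3} ℚ K]
  [Field F] [NumberField F] [Algebra K F] [IsGalois K F] [Field k] [NumberField k] [Algebra k F]
  {n : ℕ}

omit [IsGalois K F] in
lemma places_F (hn : Module.finrank K F = 3 ^ n) :
    InfinitePlace.nrRealPlaces F = 0 ∧ InfinitePlace.nrComplexPlaces F = 3 ^ n := by
  have h2 := IsCyclotomicExtension.Rat.nrRealPlaces_eq_zero (n := 3) K (by norm_num)
  rw [nrRealPlaces_eq_zero_iff] at h2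
  have h3 := isTotallyComplex_of_algebra K F
  have h4 := IsTotallyComplex.finrank F
  have h5 := Pool.Agent.W2helper22.TQ.finrank_QF K F n hn
  exact ⟨IsTotallyComplex.nrRealPlaces_eq_zero F, by omega⟩

theorem outA_F (hn : Module.finrank K F = 3 ^ n) {c : 𝓞 K}
    {art : (𝓞 K ⧸ Ideal.span {c})ˣ →* Gal(F/K)} (h : IsArtin c art) (hc : GoodC c) : OutA F := by
  obtain ⟨Lf, h1, h2, h3, h4, h5⟩ := C2 K F n hn c art h hc.1 hc.2.1 hc.2.2
  refine ⟨Lf, h1, h2, h3, h4, fun L ω hL2 hL3 _ Γ _ v hv => ?_⟩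
  obtain ⟨h6, h7⟩ := places_F (K := K) (F := F) hn
  rw [h6, h7, pow_zero, one_mul]
  exact h5 L hL2 hL3 Γ v hv

theorem outB_F (hn : Module.finrank K F = 3 ^ n) (hR : Ram K F) : OutB F :=
  ⟨(A10 K F n hn hR).1, (A10 K F n hn hR).2, A8 K F n hn hR⟩

theorem outC_F (hn : Module.finrank K F = 3 ^ n) (hR : Ram K F) : OutC F := A9 K F n hn hR

theorem outB_k (hn : Module.finrank K F = 3 ^ n) (hR : Ram K F) (h2 : Module.finrank k F = 2)
    (hk : ∀ x : k, x ^ 2 ≠ -3) : OutB k := G4 K F k n hn hR h2 hk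

theorem outC_k (hn : Module.finrank K F = 3 ^ n) (hR : Ram K F) (h2 : Module.finrank k F = 2)
    (hk : ∀ x : k, x ^ 2 ≠ -3) : OutC k := G2 K F k n hn hR h2 hk

theorem outA_k (hn : Module.finrank K F = 3 ^ n) {c : 𝓞 K}
    {art : (𝓞 K ⧸ Ideal.span {c})ˣ →* Gal(F/K)} (h : IsArtin c art) (hc : GoodC c)
    (h2 : Module.finrank k F = 2) (hk : ∀ x : k, x ^ 2 ≠ -3) : OutA k := by
  obtain ⟨Lf, a1, a2, a3, a4, a5⟩ := G1 K F k n hn c art h hc h2 hk
  refine ⟨Lf, a1, a2, a3, a4, fun L ω hL2 hL3 hω Γ _ v hv => ?_⟩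
  obtain ⟨d, hd, hdisc⟩ := G3 K F k n hn (ram_of_art h hc) h2 hk
  obtain ⟨Ω, hC⟩ := curM_of B4 hL2 hL3
  have b1 := Pool.Agent.W2helper73.TQ.v_periodM B4 hC hω hv
  have b2 := Pool.Agent.W2helper73.TQ.v_periodM_conj B4 hC hω hv
  have b3 := a5 L ω hL2 hL3 hω Γ v hv
  have b5 := InfinitePlace.card_add_two_mul_card_eq_rank k
  set r := InfinitePlace.nrRealPlaces k with hr
  set t := InfinitePlace.nrComplexPlaces k with ht
  have h10 : (Real.sqrt |(discr k : ℝ)| : ℝ) = Real.sqrt 3 ^ t * Real.sqrt d := by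
    have h11 : |(discr k : ℝ)| = ((discr k).natAbs : ℝ) := by
      rw [Nat.cast_natAbs]
      push_cast
      rfl
    rw [h11, hdisc]
    push_cast
    have h12 : Real.sqrt ((3 : ℝ) ^ t) = Real.sqrt 3 ^ t := by
      rw [Real.sqrt_eq_iff_mul_self_eq (by positivity) (by positivity), ← mul_pow,
        Real.mul_self_sqrt (by norm_num)]
    rw [Real.sqrt_mul (by positivity), h12]
  rw [Pool.Agent.Y696.area hC.lat, h10]
  have h12 : |((3 : ℤ) : ℝ)| = 3 := by norm_num
  rw [h12]
  have h3' : ((Real.sqrt 3 : ℝ) : ℂ) ≠ 0 := by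
    rw [Complex.ofReal_ne_zero]
    positivity
  have hω0 : (ω : ℂ) ≠ 0 := by
    rw [Complex.ofReal_ne_zero]
    exact hω.1.1.ne'
  have hv3 : v ((Real.sqrt 3 : ℝ) : ℂ) ≠ 0 := (Valuation.ne_zero_iff v).2 h3'
  have hvω : v (ω : ℂ) ≠ 0 := (Valuation.ne_zero_iff v).2 hω0
  rw [← b5, map_div₀, map_pow, pow_add, pow_mul] at b3
  push_cast
  rw [map_div₀, map_mul, map_mul, map_mul, map_pow, map_pow, map_pow, map_mul, map_mul, b1, b2,
    v_sqrt_nat (v_nat_three hv hd), mul_one, mul_pow, ← pow_two]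
  have h20 : v (Lf 1) = v (ω : ℂ) ^ r * (v (ω : ℂ) ^ 2) ^ t := by
    rw [div_eq_one_iff_eq (mul_ne_zero (pow_ne_zero _ hvω) (pow_ne_zero _ (pow_ne_zero _ hvω)))] at b3
    exact b3
  rw [h20, div_eq_one_iff_eq]
  · rw [mul_left_comm, mul_comm (v (ω : ℂ) ^ r)]
    exact mul_comm _ _
  · exact mul_ne_zero (pow_ne_zero _ hvω) (mul_ne_zero (pow_ne_zero _ hv3)
      (pow_ne_zero _ (pow_ne_zero _ hvω)))

end out

/-- the theorem for all the number fields contained in `Om` -/
theorem out_Om (hE : P_E7) (k : IntermediateField ℚ ℂ) [NumberField k] (hk : k ≤ Om) :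
    OutA k ∧ OutB k ∧ OutC k := by
  by_cases hK : Kw ≤ k
  · let : Algebra Kw k := (IntermediateField.inclusion hK).toRingHom.toAlgebra
    obtain ⟨g1, ⟨n, hn⟩, c, art, hc, hart⟩ := exists_art hE hk hK
    have := g1
    have hR := ram_of_art hart hc
    exact ⟨outA_F hn hart hc, outB_F hn hR, outC_F hn hR⟩
  · have hKw : Kw ≤ Om := by
      unfold Kw
      rw [IntermediateField.adjoin_simple_le_iff]
      have h1 : 2 * wC + 1 ∈ Om := IntermediateField.subset_adjoin _ _ (Or.inl (by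
        show (2 * wC + 1) ^ 2 = -3
        linear_combination 4 * wC_rel))
      have h2 : wC = (2 * wC + 1 - 1) / 2 := by ring
      rw [h2]
      exact div_mem (sub_mem h1 (one_mem _)) (ofNat_mem _ 2)
    let F : IntermediateField ℚ ℂ := k ⊔ Kw
    have hkF : k ≤ F := le_sup_left
    have hKF : Kw ≤ F := le_sup_right
    have hF : F ≤ Om := sup_le hk hKw
    have f1 : FiniteDimensional ℚ k := inferInstance
    have f2 : FiniteDimensional ℚ F := IntermediateField.finiteDimensional_sup k Kw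
    have f3 : NumberField F := ⟨⟩
    let : Algebra Kw F := (IntermediateField.inclusion hKF).toRingHom.toAlgebra
    let : Algebra k F := (IntermediateField.inclusion hkF).toRingHom.toAlgebra
    have t1 : IsScalarTower ℚ k F := IsScalarTower.of_algebraMap_eq fun x => rfl
    obtain ⟨g1, ⟨n, hn⟩, c, art, hc, hart⟩ := exists_art hE hF hKF
    have := g1
    have hR := ram_of_art hart hc
    have hsq : ∀ x : k, x ^ 2 ≠ -3 := by
      intro x hx
      refine hK ?_
      unfold Kw
      rw [IntermediateField.adjoin_simple_le_iff]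
      have h1 : (x : ℂ) ^ 2 = -3 := congrArg (fun z : k => (z : ℂ)) hx
      have h2 : wC = (x - 1) / 2 ∨ wC = (-x - 1) / 2 := by
        rcases sqrt_cases h1 with h | h
        · left; rw [h]; ring
        · right; rw [h]; ring
      rcases h2 with h | h
      · rw [h]
        exact div_mem (sub_mem x.2 (one_mem _)) (ofNat_mem _ 2)
      · rw [h]
        exact div_mem (sub_mem (neg_mem x.2) (one_mem _)) (ofNat_mem _ 2)
    have h2 : Module.finrank k F = 2 := by
      have e1 : Module.finrank ℚ k * Module.finrank k F = Module.finrank ℚ F :=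
        Module.finrank_mul_finrank ℚ k F
      have e2 : Module.finrank ℚ F ≤ Module.finrank ℚ k * Module.finrank ℚ Kw :=
        IntermediateField.finrank_sup_le k Kw
      have e3 : Module.finrank ℚ Kw = 2 := by
        rw [IsCyclotomicExtension.finrank (n := 3) Kw
          (Polynomial.cyclotomic.irreducible_rat (by norm_num))]
        decide
      have e4 : 0 < Module.finrank ℚ k := Module.finrank_pos
      rw [e3, ← e1] at e2
      have e5 : Module.finrank k F ≤ 2 := Nat.le_of_mul_le_mul_left e2 e4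
      have e6 : 0 < Module.finrank k F := by
        have : FiniteDimensional k F := Module.Finite.right ℚ k F
        exact Module.finrank_pos
      have e7 : Module.finrank k F ≠ 1 := by
        intro h1
        have e8 : (⟨wC, hKF wC_Kw⟩ : F) ∈ (⊥ : Subalgebra k F) := by
          rw [Subalgebra.bot_eq_top_of_finrank_eq_one h1]
          exact Algebra.mem_top
        obtain ⟨y, hy⟩ := Algebra.mem_bot.1 e8
        refine hK ?_
        unfold Kw
        rw [IntermediateField.adjoin_simple_le_iff]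
        have h3 : (y : ℂ) = wC := congrArg (fun z : F => (z : ℂ)) hy
        rw [← h3]
        exact y.2
      omega
    exact ⟨outA_k hn hart hc h2 hsq, outB_k hn hR h2 hsq, outC_k hn hR h2 hsq⟩

end Pool.Agent.W2helper24.TQ
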